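import Mathlib

/-!
# Borel determinacy, part 1: game trees, plays, strategies, coverings
-/

set_option autoImplicit false

namespace Q203.BD

universe u

/-- A pruned game tree, given by its type of positions, their levels and the predecessor map. -/
structure Gm : Type (u + 1) where
  P : Type u
  lvl : P → ℕ
  par : P → P
  lvl_par : ∀ p, lvl (par p) = lvl p - 1
  ext : ∀ p, ∃ q, lvl q = lvl p + 1 ∧ par q = p

namespace Gm

variable (G : Gm.{u})

/-- `c` is a child of `p` -/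
def Child (p c : G.P) : Prop := G.lvl c = G.lvl p + 1 ∧ G.par c = p

/-- plays -/
def Play (x : ℕ → G.P) : Prop := G.lvl (x 0) = 0 ∧ ∀ n, G.Child (x n) (x (n + 1))

/-- strategies: a child for every position -/
def Str (f : G.P → G.P) : Prop := ∀ p, G.Child p (f p)

/-- the play follows the strategy as player `i` -/
def Fol (i : ℕ) (f : G.P → G.P) (x : ℕ → G.P) : Prop :=
  ∀ n, Even (n + i) → x (n + 1) = f (x n)

/-- the ancestor at level `n` -/
def anc (n : ℕ) (p : G.P) : G.P := G.par^[G.lvl p - n] p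

variable {G}

lemma Play.lvl {x : ℕ → G.P} (h : G.Play x) (n : ℕ) : G.lvl (x n) = n := by
  induction n with
  | zero => exact h.1
  | succ n ih => rw [(h.2 n).1, ih]

lemma Play.child {x : ℕ → G.P} (h : G.Play x) (n : ℕ) : G.Child (x n) (x (n + 1)) := h.2 n

lemma Play.par {x : ℕ → G.P} (h : G.Play x) (n : ℕ) : G.par (x (n + 1)) = x n := (h.2 n).2

lemma lvl_iter (m : ℕ) (p : G.P) : G.lvl (G.par^[m] p) = G.lvl p - m := by
  induction m with
  | zero => rfl
  | succ m ih => rw [Function.iterate_succ_apply', G.lvl_par, ih]; omega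

lemma lvl_anc {n : ℕ} {p : G.P} (h : n ≤ G.lvl p) : G.lvl (G.anc n p) = n := by
  rw [anc, lvl_iter]; omega

lemma anc_self (p : G.P) : G.anc (G.lvl p) p = p := by
  simp [anc]

lemma anc_self' {n : ℕ} {p : G.P} (h : G.lvl p = n) : G.anc n p = p := by
  rw [← h, anc_self]

lemma anc_child {p c : G.P} (h : G.Child p c) {n : ℕ} (hn : n ≤ G.lvl p) :
    G.anc n c = G.anc n p := by
  have : G.lvl c - n = (G.lvl p - n) + 1 := by rw [h.1]; omega
  rw [anc, this, Function.iterate_succ_apply, h.2, anc]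

lemma par_anc {p : G.P} {n : ℕ} (hn : n + 1 ≤ G.lvl p) :
    G.par (G.anc (n + 1) p) = G.anc n p := by
  have : G.lvl p - n = (G.lvl p - (n + 1)) + 1 := by omega
  rw [anc, anc, this, Function.iterate_succ_apply']

lemma child_anc {p : G.P} {n : ℕ} (hn : n + 1 ≤ G.lvl p) :
    G.Child (G.anc n p) (G.anc (n + 1) p) := by
  refine ⟨?_, par_anc hn⟩
  rw [lvl_anc hn, lvl_anc (by omega)]

lemma anc_par {p : G.P} {n : ℕ} (h0 : 0 < G.lvl p) (hn : n ≤ G.lvl p - 1) :
    G.anc n (G.par p) = G.anc n p := by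
  have : G.lvl p - n = (G.lvl (G.par p) - n) + 1 := by rw [G.lvl_par]; omega
  rw [anc, anc, this, Function.iterate_succ_apply]

lemma anc_anc {p : G.P} {m n : ℕ} (hm : m ≤ n) (hn : n ≤ G.lvl p) :
    G.anc m (G.anc n p) = G.anc m p := by
  have h1 := lvl_anc hn
  rw [anc, h1, anc, anc, ← Function.iterate_add_apply]
  congr 1
  omega

lemma child_par {p : G.P} (h0 : 0 < G.lvl p) : G.Child (G.par p) p := by
  refine ⟨?_, rfl⟩
  rw [G.lvl_par]; omega

lemma Play.anc {x : ℕ → G.P} (h : G.Play x) {n m : ℕ} (hnm : n ≤ m) : G.anc n (x m) = x n := by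
  induction m, hnm using Nat.le_induction with
  | base => exact anc_self' (h.lvl n)
  | succ m hm ih => rw [anc_child (h.child m) (by rw [h.lvl]; exact hm), ih]

end Gm

open Gm

/-- A covering of `G` by `G'` which is trivial up to level `k`. -/
structure Cov (k : ℕ) (G' G : Gm.{u}) : Type u where
  π : G'.P → G.P
  lvl_π : ∀ q, G.lvl (π q) = G'.lvl q
  par_π : ∀ q, 0 < G'.lvl q → G.par (π q) = π (G'.par q)
  inj : ∀ p q, G'.lvl p ≤ k → G'.lvl q ≤ k → π p = π q → p = q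
  surj : ∀ p, G.lvl p ≤ k → ∃ q, π q = p
  φ : ℕ → (G'.P → G'.P) → (G.P → G.P)
  φ_str : ∀ i f, G'.Str f → G.Str (φ i f)
  φ_loc : ∀ i f g, G'.Str f → G'.Str g → ∀ n, (∀ q, G'.lvl q ≤ n → f q = g q) →
    ∀ p, G.lvl p ≤ n → φ i f p = φ i g p
  φ_low : ∀ i f, G'.Str f → ∀ q, G'.lvl q < k → φ i f (π q) = π (f q)
  φ_lift : ∀ i f, G'.Str f → ∀ x, G.Play x → G.Fol i (φ i f) x →
    ∃ x', G'.Play x' ∧ G'.Fol i f x' ∧ ∀ n, π (x' n) = x n

namespace Cov

lemma child {k : ℕ} {G' G : Gm.{u}} (c : Cov k G' G) {p q : G'.P} (h : G'.Child p q) :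
    G.Child (c.π p) (c.π q) := by
  refine ⟨by rw [c.lvl_π, c.lvl_π, h.1], ?_⟩
  rw [c.par_π q (by rw [h.1]; omega), h.2]

lemma play {k : ℕ} {G' G : Gm.{u}} (c : Cov k G' G) {x : ℕ → G'.P} (h : G'.Play x) :
    G.Play (fun n => c.π (x n)) :=
  ⟨by rw [c.lvl_π]; exact h.1, fun n => c.child (h.child n)⟩

/-- weakening -/
def mono {k l : ℕ} (hkl : k ≤ l) {G' G : Gm.{u}} (c : Cov l G' G) : Cov k G' G where
  π := c.π
  lvl_π := c.lvl_π
  par_π := c.par_π
  inj := fun p q hp hq h => c.inj p q (hp.trans hkl) (hq.trans hkl) h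
  surj := fun p hp => c.surj p (hp.trans hkl)
  φ := c.φ
  φ_str := c.φ_str
  φ_loc := c.φ_loc
  φ_low := fun i f hf q hq => c.φ_low i f hf q (hq.trans_le hkl)
  φ_lift := c.φ_lift

/-- identity -/
def id (k : ℕ) (G : Gm.{u}) : Cov k G G where
  π := fun p => p
  lvl_π := fun _ => rfl
  par_π := fun _ _ => rfl
  inj := fun _ _ _ _ h => h
  surj := fun p _ => ⟨p, rfl⟩
  φ := fun _ f => f
  φ_str := fun _ _ h => h
  φ_loc := fun _ _ _ _ _ _ h => h
  φ_low := fun _ _ _ _ _ => rfl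
  φ_lift := fun _ _ _ x hx hf => ⟨x, hx, hf, fun _ => rfl⟩

/-- composition -/
def comp {k : ℕ} {G'' G' G : Gm.{u}} (c : Cov k G' G) (d : Cov k G'' G') : Cov k G'' G where
  π := fun p => c.π (d.π p)
  lvl_π := fun p => by rw [c.lvl_π, d.lvl_π]
  par_π := fun p hp => by rw [c.par_π _ (by rw [d.lvl_π]; exact hp), d.par_π p hp]
  inj := fun p q hp hq h => d.inj p q hp hq
    (c.inj _ _ (by rw [d.lvl_π]; exact hp) (by rw [d.lvl_π]; exact hq) h)
  surj := fun p hp => by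
    obtain ⟨q, rfl⟩ := c.surj p hp
    rw [c.lvl_π] at hp
    obtain ⟨r, rfl⟩ := d.surj q hp
    exact ⟨r, rfl⟩
  φ := fun i f => c.φ i (d.φ i f)
  φ_str := fun i f hf => c.φ_str i _ (d.φ_str i f hf)
  φ_loc := fun i f g hf hg n h => c.φ_loc i _ _ (d.φ_str i f hf) (d.φ_str i g hg) n
    (d.φ_loc i f g hf hg n h)
  φ_low := fun i f hf q hq => by
    rw [c.φ_low i _ (d.φ_str i f hf) (d.π q) (by rw [d.lvl_π]; exact hq), d.φ_low i f hf q hq]
  φ_lift := fun i f hf x hx hfol => by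
    obtain ⟨x', h1, h2, h3⟩ := c.φ_lift i _ (d.φ_str i f hf) x hx hfol
    obtain ⟨x'', h4, h5, h6⟩ := d.φ_lift i f hf x' h1 h2
    exact ⟨x'', h4, h5, fun n => by rw [h6, h3]⟩

end Cov

end Q203.BD
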