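import Pool.Agent.Q203.BD.Phi

/-!
# Borel determinacy, part 6: the covering unraveling a closed set (end)
-/

set_option autoImplicit false

namespace Q203.BD

open Gm

universe u

variable {G : Gm.{u}} {k : ℕ} {O : Set G.P} {f g : (Unr G k O).P → (Unr G k O).P}

theorem φII_lift (hf : (Unr G k O).Str f) {x : ℕ → G.P} (hx : G.Play x)
    (hfol : G.Fol (k + 1) (φII f) x) :
    ∃ x' : ℕ → (Unr G k O).P, (Unr G k O).Play x' ∧ (Unr G k O).Fol (k + 1) f x' ∧
      ∀ n, (x' n).1.1 = x n := by
  classical
  have hlow : ∀ n, Even (n + (k + 1)) → n < k → x (n + 1) = ap f (x n) Aux.none := by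
    intro n hn hnk
    rw [hfol n hn, φII, if_pos (by rw [hx.lvl]; omega)]
  have hlr : G.lvl (x (k + 1)) = k + 1 := hx.lvl _
  have hanc1 : ∀ n, k + 1 ≤ n → G.anc (k + 1) (x n) = x (k + 1) := fun n hn => hx.anc hn
  have hanc2 : ∀ n, k + 2 ≤ n → G.anc (k + 2) (x n) = x (k + 2) := fun n hn => hx.anc hn
  set r := x (k + 1) with hr
  set U := tgt f r with hU
  set T0 := tr G Set.univ U (k + 1) r with hT0
  have hdef : ∀ n, k + 1 ≤ n → Even (n + (k + 1)) → x (n + 1) =
      if Met G U (k + 2) (x n) then
        ap f (x n) (Aux.bad (tgtS f r (fst G U (k + 2) (x n))) (fst G U (k + 2) (x n)))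
      else if Legal G k O (x n) (Aux.one T0) then ap f (x n) (Aux.one T0)
      else if Legal G k O (x n) (Aux.good T0 (secT (apA f r (Aux.one T0)))) then
        ap f (x n) (Aux.good T0 (secT (apA f r (Aux.one T0))))
      else wst G Set.univ U (k + 1) (x n) := by
    intro n hn he
    rw [hfol n he]
    conv_lhs => rw [φII]
    rw [if_neg (by rw [hx.lvl]; omega), hanc1 n hn]
  have hUlvl : ∀ v ∈ U, k + 2 ≤ G.lvl v := by
    rintro v ⟨S, h1, h2⟩
    have h3 := (ap_legal hf h1).1
    rw [h2] at h3
    exact h3.2.2.2.1
  by_cases hhit : ∃ m, k + 2 ≤ m ∧ x m ∈ U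
  · obtain ⟨m, ⟨hm, hmU⟩, hmin⟩ := exists_first hhit
    have hmin' : ∀ l, k + 2 ≤ l → l < m → x l ∉ U := fun l h1 h2 h3 => hmin l h2 ⟨h1, h3⟩
    obtain ⟨hS1, hS2⟩ := tgtS_spec hmU
    set S := tgtS f r (x m) with hS
    have h3 := (ap_legal hf hS1).1
    rw [hS2] at h3
    have hcl := (ap_child hf r (Aux.one S)).1
    rw [hlr] at hcl
    obtain ⟨_, _, h4, h5, h6, h7⟩ := h3
    have hc : x (k + 2) = ap f r (Aux.one S) := by
      rcases h7 with ⟨h8, h9⟩ | ⟨h8, h9⟩
      · rw [hcl, hx.anc hm] at h9
        exact h9
      · rw [hx.lvl, hcl] at h8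
        have : m = k + 2 := by omega
        subst this
        rw [anc_self' (by rw [hx.lvl, hcl])] at h9
        exact h9.symm
    have hbad : ∀ n, k + 2 ≤ n → Legal G k O (x n) (Aux.bad S (x m)) := by
      intro n hn
      refine ⟨by rw [hx.lvl]; exact hn, by rw [hanc1 n (by omega)]; exact hS1.2, h4,
        by rw [hx.lvl]; exact hm, h6, ?_⟩
      simp only [hx.lvl]
      rcases le_total n m with h | h
      · exact Or.inl ⟨h, hx.anc h⟩
      · exact Or.inr ⟨h, hx.anc h⟩
    refine lift_tail hx (S := S) (b := Aux.bad S (x m)) (by simp [parAux])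
      (fun n hn => by simp only [parAux]; rw [if_neg (by omega)]) hS1 hbad hf
      (fun n h1 h2 => hlow n h1 h2) (fun h => ?_) (fun _ => ⟨hc, hS2⟩) (fun n he hn => ?_)
    · exfalso; grind
    · rcases Nat.lt_or_ge n m with h | h
      · rw [bad_forced hf (hbad n hn) (by rw [hx.lvl, hx.lvl]; exact h), hx.lvl,
          hx.anc (by omega)]
      · rw [hdef n (by omega) he, if_pos ((met_play hx).2 ⟨m, hm, h, hmU⟩),
          fst_play hx hm h hmU hmin']
  · push Not at hhit
    have hnm : ∀ n, ¬ Met G U (k + 2) (x n) := by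
      intro n
      rw [met_play hx]
      rintro ⟨m, hm1, _, hm3⟩
      exact hhit m hm1 hm3
    have hrU : x (k + 1) ∉ U := fun h => by
      have := hUlvl _ h
      rw [hlr] at this
      omega
    by_cases hw : Win G Set.univ U (k + 1) r
    · exfalso
      have hrT : r ∉ T0 := fun h => (tr_root h).2 hw
      obtain ⟨m, hm1, hm2⟩ := reach (S := Set.univ) (U := U) (i := k + 1) (n := k + 1) hx hw
        (fun m hm he _ _ => trivial)
        (fun m hm he _ _ => by
          rw [hdef m (by omega) he, if_neg (hnm m), if_neg, if_neg]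
          · intro hL
            have h5 := hL.2.1.root
            rw [hanc1 m hm] at h5
            exact hrT h5
          · intro hL
            have h5 := hL.2.root
            rw [show x m = r by
              have h6 := hL.1
              rw [hx.lvl] at h6
              rw [h6]] at h5
            exact hrT h5)
      rcases Nat.lt_or_ge (k + 1) m with h | h
      · exact hhit m h hm2
      · have : m = k + 1 := by omega
        subst this
        exact hrU hm2
    · have hQ0 : QS G Set.univ k r T0 := tr_qs trivial hw (fun n => by grind)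
      have hL0 : Legal G k O r (Aux.one T0) := ⟨hlr, hQ0⟩
      have hek : Even (k + 1 + (k + 1)) := ⟨k + 1, rfl⟩
      have hc : x (k + 2) = ap f r (Aux.one T0) := by
        rw [show k + 2 = k + 1 + 1 from rfl, hdef (k + 1) le_rfl hek, if_neg (hnm _), if_pos hL0]
      have hgood : ∃ T, apA f r (Aux.one T0) = Aux.good T0 T := by
        rcases apA_mid hf hL0 with ⟨v, hv⟩ | h
        · exfalso
          have h1 := (ap_legal hf hL0).1
          rw [hv] at h1
          exact tr_notU h1.2.2.1 ⟨T0, hL0, hv⟩
        · exact h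
      obtain ⟨T, hT⟩ := hgood
      have hLc := (ap_legal hf hL0).1
      rw [hT, ← hc] at hLc
      obtain ⟨_, _, hQT, hTO, hcT⟩ := hLc
      rw [anc_self' (hx.lvl _)] at hQT
      have hTL : ∀ n, k + 2 ≤ n → x n ∈ T → Legal G k O (x n) (Aux.good T0 T) := by
        intro n hn h
        exact ⟨by rw [hx.lvl]; exact hn, by rw [hanc1 n (by omega)]; exact hQ0,
          by rw [hanc2 n hn]; exact hQT, hTO, h⟩
      have hdef' : ∀ n, k + 2 ≤ n → Even (n + (k + 1)) → x (n + 1) =
          if Legal G k O (x n) (Aux.good T0 T) then ap f (x n) (Aux.good T0 T)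
          else wst G Set.univ U (k + 1) (x n) := by
        intro n hn he
        rw [hdef n (by omega) he, if_neg (hnm n), if_neg, hT]
        · rfl
        · intro hL
          have h6 := hL.1
          rw [hx.lvl] at h6
          omega
      have H : ∀ n, k + 2 ≤ n → (x n ∈ T ∨ Win G Set.univ U (k + 1) (x n)) := by
        intro n hn
        induction n, hn using Nat.le_induction with
        | base => exact Or.inl hcT
        | succ n hn ih =>
          by_cases he : Even (n + (k + 1))
          · have hd := hdef' n hn he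
            by_cases hxT : x n ∈ T
            · rw [if_pos (hTL n hn hxT)] at hd
              have h3 := ap_legal_high hf (hTL n hn hxT) (by rw [hx.lvl]; exact hn)
              rw [← hd] at h3
              exact Or.inl h3.2.2.2.2
            · rw [if_neg (fun h => hxT h.2.2.2.2)] at hd
              have h3 := wst_spec (ih.resolve_left hxT) (hhit n hn) (by rw [hx.lvl]; exact he)
              rw [← hd] at h3
              exact Or.inr h3.2.1
          · by_cases hw' : Win G Set.univ U (k + 1) (x (n + 1))
            · exact Or.inr hw'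
            · rcases ih with h2 | h2
              · left
                apply hQT.opp _ h2 (by rw [hx.lvl]; exact he) _ (hx.child _)
                exact tr_child (hQT.sub h2) (hx.child n) trivial hw'
              · exfalso
                rcases win_cases h2 with h4 | ⟨h4, _⟩ | ⟨_, h4⟩
                · exact hhit n hn h4
                · rw [hx.lvl] at h4; exact he h4
                · exact hw' (h4 _ (hx.child n) trivial).1
      by_cases hall : ∀ n, k + 2 ≤ n → x n ∈ T
      · refine lift_tail hx (S := T0) (b := Aux.good T0 T) (by simp [parAux])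
          (fun n hn => by simp only [parAux]; rw [if_neg (by omega)]) hL0
          (fun n hn => hTL n hn (hall n hn)) hf
          (fun n h1 h2 => hlow n h1 h2) (fun h => ?_) (fun _ => ⟨hc, hT⟩) (fun n he hn => ?_)
        · exfalso; grind
        · rw [hdef' n hn he, if_pos (hTL n hn (hall n hn))]
      · exfalso
        push Not at hall
        obtain ⟨n, hn, hnT⟩ := hall
        have hW := (H n hn).resolve_left hnT
        obtain ⟨m, hm1, hm2⟩ := reach (S := Set.univ) (U := U) (i := k + 1) hx hW
          (fun m hm he _ _ => trivial)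
          (fun m hm he _ _ => by
            rw [hdef' m (by omega) he, if_neg]
            intro hL
            have h5 := hQT.anc hL.2.2.2.2 (n := n) (by rw [hx.lvl]; exact hn)
              (by rw [hx.lvl]; exact hm)
            rw [hx.anc hm] at h5
            exact hnT h5)
        exact hhit m (by omega) hm2

variable (G k O) in
open Classical in
/-- The covering. -/
noncomputable def unrCov : Cov k (Unr G k O) G where
  π := fun z => z.1.1
  lvl_π := fun _ => rfl
  par_π := fun _ _ => rfl
  inj := fun p q hp hq h => by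
    have h1 := legal_low p.2 hp
    have h2 := legal_low q.2 hq
    exact Subtype.ext (Prod.ext h (h1.trans h2.symm))
  surj := fun p hp => ⟨⟨(p, Aux.none), hp⟩, rfl⟩
  φ := fun i f => if Even (i + k) then φI f else φII f
  φ_str := fun i f hf => by
    split_ifs
    · exact φI_str hf
    · exact φII_str hf
  φ_loc := fun i f g _ _ n h p hp => by
    by_cases hi : Even (i + k)
    · simp only [if_pos hi]; exact φI_loc h hp
    · simp only [if_neg hi]; exact φII_loc h hp
  φ_low := fun i f _ q hq => by
    by_cases hi : Even (i + k)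
    · simp only [if_pos hi]; exact φI_low q hq
    · simp only [if_neg hi]; exact φII_low q hq
  φ_lift := fun i f hf x hx hfol => by
    by_cases hi : Even (i + k)
    · simp only [if_pos hi] at hfol
      obtain ⟨x', h1, h2, h3⟩ := φI_lift hf hx (fun n hn => hfol n (by grind))
      exact ⟨x', h1, fun n hn => h2 n (by grind), h3⟩
    · simp only [if_neg hi] at hfol
      obtain ⟨x', h1, h2, h3⟩ := φII_lift hf hx (fun n hn => hfol n (by grind))
      exact ⟨x', h1, fun n hn => h2 n (by grind), h3⟩

/-- membership in `A` is decided at level `N` -/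
def FD (G : Gm.{u}) (N : ℕ) (A : Set (ℕ → G.P)) : Prop :=
  ∀ x y, G.Play x → G.Play y → x N = y N → (x ∈ A ↔ y ∈ A)

/-- the preimage of a set of plays -/
def Cov.pre {k : ℕ} {G' G : Gm.{u}} (c : Cov k G' G) (A : Set (ℕ → G.P)) :
    Set (ℕ → G'.P) := {x | (fun n => c.π (x n)) ∈ A}

lemma unr_play_aux {x : ℕ → (Unr G k O).P} (hx : (Unr G k O).Play x) {n : ℕ} (hn : k + 2 ≤ n) :
    (x n).1.2 = (x (k + 2)).1.2 := by
  induction n, hn using Nat.le_induction with
  | base => rfl
  | succ n hn ih =>
    rw [← ih]
    have h1 := congrArg (fun z : (Unr G k O).P => z.1.2) (hx.par n)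
    have h2 : parAux k (G.lvl (x (n + 1)).1.1) (x (n + 1)).1.2 = (x n).1.2 := h1
    have h3 : G.lvl (x (n + 1)).1.1 = n + 1 := hx.lvl (n + 1)
    rw [h3] at h2
    rcases legal_high (x (n + 1)).2 (by rw [h3]; omega) with ⟨S, v, h4⟩ | ⟨S, T, h4⟩
    · rw [h4] at h2 ⊢
      simp only [parAux] at h2
      rwa [if_neg (by omega)] at h2
    · rw [h4] at h2 ⊢
      simp only [parAux] at h2
      rwa [if_neg (by omega)] at h2

theorem unr_decides (hO : ∀ p c, p ∈ O → G.Child p c → c ∈ O) :
    FD (Unr G k O) (k + 2) ((unrCov G k O).pre {x | ∃ n, x n ∈ O}) := by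
  have key : ∀ x, (Unr G k O).Play x → (x ∈ (unrCov G k O).pre {x | ∃ n, x n ∈ O} ↔
      ∃ S v, (x (k + 2)).1.2 = Aux.bad S v) := by
    intro x hx
    have hxG : G.Play (fun n => (x n).1.1) := (unrCov G k O).play hx
    have hlv : ∀ n, G.lvl (x n).1.1 = n := fun n => hx.lvl n
    constructor
    · rintro ⟨n, hn⟩
      change (x n).1.1 ∈ O at hn
      rcases legal_high (x (k + 2)).2 (by rw [hlv]) with h | ⟨S, T, h⟩
      · exact h
      · exfalso
        have hup : ∀ m, n ≤ m → (x m).1.1 ∈ O := by
          intro m hm
          induction m, hm using Nat.le_induction with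
          | base => exact hn
          | succ m _ ih => exact hO _ _ ih (hxG.child m)
        have h1 := (x (max n (k + 2))).2
        rw [unr_play_aux hx (le_max_right _ _), h] at h1
        exact h1.2.2.2.1 _ h1.2.2.2.2 (hup _ (le_max_left _ _))
    · rintro ⟨S, v, h⟩
      have h1 := (x (k + 2)).2
      rw [h] at h1
      obtain ⟨_, _, _, h2, h3, _⟩ := h1
      have h4 := (x (G.lvl v)).2
      rw [unr_play_aux hx h2, h] at h4
      have h5 : (x (G.lvl v)).1.1 = v := by
        rcases h4.2.2.2.2.2 with ⟨_, h6⟩ | ⟨_, h6⟩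
        · rw [hlv, anc_self] at h6; exact h6.symm
        · rw [anc_self' (hlv _)] at h6; exact h6
      refine ⟨G.lvl v, ?_⟩
      change (x (G.lvl v)).1.1 ∈ O
      rw [h5]; exact h3
  intro x y hx hy hxy
  rw [key x hx, key y hy, hxy]

end Q203.BD
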