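import Pool.Agent.Q203.BD.Closed

/-!
# Borel determinacy, part 7: inverse limits of coverings
-/

set_option autoImplicit false

namespace Q203.BD

open Gm

universe u

lemma exists_thread (i : ℕ) : ∀ {X : ℕ → Type u} (π : ∀ i, X (i + 1) → X i)
    (L : ∀ i, Set (X i)) (_ : ∀ i p, p ∈ L i → ∃ q ∈ L (i + 1), π i q = p) (p : X i),
    p ∈ L i → ∃ t : ∀ j, X j, (∀ j, π j (t (j + 1)) = t j) ∧ t i = p := by
  induction i with
  | zero =>
    intro X π L hL p hp
    let t : ∀ j, {q : X j // q ∈ L j} := fun j => Nat.rec (motive := fun j => {q : X j // q ∈ L j})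
      ⟨p, hp⟩ (fun j q => ⟨(hL j q.1 q.2).choose, (hL j q.1 q.2).choose_spec.1⟩) j
    exact ⟨fun j => (t j).1, fun j => (hL j (t j).1 (t j).2).choose_spec.2, rfl⟩
  | succ i ih =>
    intro X π L hL p hp
    obtain ⟨t', h1, h2⟩ := ih (X := fun j => X (j + 1)) (fun j => π (j + 1)) (fun j => L (j + 1))
      (fun j q hq => hL (j + 1) q hq) p hp
    refine ⟨fun j => Nat.casesOn (motive := fun j => X j) j (π 0 (t' 0)) (fun j => t' j),
      fun j => ?_, h2⟩
    cases j with
    | zero => rfl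
    | succ j => exact h1 j

section

variable {G : ℕ → Gm.{u}} {k : ℕ} (c : ∀ i, Cov (k + i) (G (i + 1)) (G i))

/-- threads -/
abbrev LP : Type u := {t : ∀ i, (G i).P // ∀ i, (c i).π (t (i + 1)) = t i}

variable {c}

lemma lp_lvl (t : LP c) (i : ℕ) : (G i).lvl (t.1 i) = (G 0).lvl (t.1 0) := by
  induction i with
  | zero => rfl
  | succ i ih => rw [← ih, ← t.2 i, (c i).lvl_π]

lemma lp_ext {t s : LP c} {i : ℕ} (hi : (G 0).lvl (t.1 0) ≤ k + i) (h : t.1 i = s.1 i) :
    t = s := by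
  have h0 : (G 0).lvl (s.1 0) = (G 0).lvl (t.1 0) := by rw [← lp_lvl t i, ← lp_lvl s i, h]
  have hup : ∀ j, i ≤ j → t.1 j = s.1 j := by
    intro j hj
    induction j, hj using Nat.le_induction with
    | base => exact h
    | succ j hj ih =>
      apply (c j).inj
      · rw [lp_lvl]; omega
      · rw [lp_lvl]; omega
      · rw [t.2 j, s.2 j, ih]
  have hdown : ∀ j, t.1 (j + 1) = s.1 (j + 1) → t.1 j = s.1 j := fun j hj => by
    rw [← t.2 j, ← s.2 j, hj]
  have hdown' : ∀ d j, t.1 (j + d) = s.1 (j + d) → t.1 j = s.1 j := by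
    intro d
    induction d with
    | zero => intro j hj; exact hj
    | succ d ih => intro j hj; exact ih j (hdown _ hj)
  apply Subtype.ext
  funext j
  exact hdown' i j (hup (j + i) (by omega))

lemma lp_exists {i : ℕ} (p : (G i).P) (hp : (G i).lvl p ≤ k + i) : ∃ t : LP c, t.1 i = p := by
  obtain ⟨t, h1, h2⟩ := exists_thread i (X := fun i => (G i).P) (fun i => (c i).π)
    (fun i => {p | (G i).lvl p ≤ k + i})
    (fun i p hp => by
      obtain ⟨q, rfl⟩ := (c i).surj p hp
      refine ⟨q, ?_, rfl⟩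
      have h : (G i).lvl ((c i).π q) ≤ k + i := hp
      rw [(c i).lvl_π] at h
      change (G (i + 1)).lvl q ≤ k + (i + 1)
      omega) p hp
  exact ⟨⟨t, h1⟩, h2⟩

variable (c) in
open Classical in
/-- the predecessor of a thread -/
noncomputable def lpar (t : LP c) : LP c :=
  if h : 0 < (G 0).lvl (t.1 0) then
      ⟨fun i => (G i).par (t.1 i), fun i => by
        rw [← (c i).par_π _ (by rw [lp_lvl]; exact h), t.2 i]⟩
    else t

lemma lpar_pos {t : LP c} (h : 0 < (G 0).lvl (t.1 0)) (i : ℕ) :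
    (lpar c t).1 i = (G i).par (t.1 i) := by
  rw [lpar, dif_pos h]

lemma lpar_zero {t : LP c} (h : ¬ 0 < (G 0).lvl (t.1 0)) : lpar c t = t := by
  rw [lpar, dif_neg h]

lemma lpar_lvl (t : LP c) : (G 0).lvl ((lpar c t).1 0) = (G 0).lvl (t.1 0) - 1 := by
  by_cases h : 0 < (G 0).lvl (t.1 0)
  · rw [lpar_pos h, (G 0).lvl_par]
  · rw [lpar_zero h]; omega

lemma lpar_ext (t : LP c) : ∃ q : LP c, (G 0).lvl (q.1 0) = (G 0).lvl (t.1 0) + 1 ∧
    lpar c q = t := by
  obtain ⟨q, h1, h2⟩ := (G ((G 0).lvl (t.1 0) + 1)).ext (t.1 _)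
  have h1' : (G ((G 0).lvl (t.1 0) + 1)).lvl q = (G 0).lvl (t.1 0) + 1 :=
    h1.trans (by rw [lp_lvl t])
  obtain ⟨s, hs⟩ := lp_exists (c := c) q (by omega)
  have h3 : (G 0).lvl (s.1 0) = (G 0).lvl (t.1 0) + 1 := by
    rw [← lp_lvl s ((G 0).lvl (t.1 0) + 1), hs, h1']
  refine ⟨s, h3, ?_⟩
  apply lp_ext (i := (G 0).lvl (t.1 0) + 1)
  · rw [lpar_lvl]; omega
  · rw [lpar_pos (by omega), hs, h2]

variable (c) in
/-- the inverse limit -/
noncomputable abbrev Lim : Gm.{u} where
  P := LP c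
  lvl := fun t => (G 0).lvl (t.1 0)
  par := lpar c
  lvl_par := lpar_lvl
  ext := lpar_ext

lemma lim_child {t s : (Lim c).P} (h : (Lim c).Child t s) (i : ℕ) :
    (G i).Child (t.1 i) (s.1 i) := by
  have h1 : (G 0).lvl (s.1 0) = (G 0).lvl (t.1 0) + 1 := h.1
  refine ⟨by rw [lp_lvl s, lp_lvl t]; exact h1, ?_⟩
  have h2 : lpar c s = t := h.2
  rw [← h2, lpar_pos (by omega)]

lemma lim_child_of {t s : (Lim c).P} (h : ∀ i, (G i).Child (t.1 i) (s.1 i)) :
    (Lim c).Child t s := by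
  have h1 : (G 0).lvl (s.1 0) = (G 0).lvl (t.1 0) + 1 := (h 0).1
  refine ⟨h1, ?_⟩
  apply Subtype.ext
  funext i
  change (lpar c s).1 i = t.1 i
  rw [lpar_pos (by omega)]
  exact (h i).2

lemma lim_play {x : ℕ → (Lim c).P} (hx : (Lim c).Play x) (i : ℕ) :
    (G i).Play (fun n => (x n).1 i) := by
  refine ⟨?_, fun n => lim_child (hx.child n) i⟩
  rw [lp_lvl]; exact hx.1

open Classical in
/-- trace of a strategy on the `i`-th game -/
noncomputable def tra (f : (Lim c).P → (Lim c).P) (i : ℕ) (p : (G i).P) : (G i).P :=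
  if h : (G i).lvl p < k + i then (f (lp_exists (c := c) p h.le).choose).1 i
  else ((G i).ext p).choose

variable {f g : (Lim c).P → (Lim c).P}

lemma tra_eq (t : (Lim c).P) {i : ℕ} (h : (Lim c).lvl t < k + i) :
    tra f i (t.1 i) = (f t).1 i := by
  have h0 : (G i).lvl (t.1 i) < k + i := by rw [lp_lvl]; exact h
  have h' := (lp_exists (c := c) (t.1 i) h0.le).choose_spec
  rw [tra, dif_pos h0]
  have h'' : (lp_exists (c := c) (t.1 i) h0.le).choose = t := by
    apply lp_ext (i := i)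
    · rw [← lp_lvl _ i, h']; exact h0.le
    · exact h'
  rw [h'']

lemma tra_str (hf : (Lim c).Str f) (i : ℕ) : (G i).Str (tra f i) := by
  intro p
  unfold tra
  split_ifs with h
  · have h' := (lp_exists (c := c) p h.le).choose_spec
    have h1 := lim_child (hf (lp_exists (c := c) p h.le).choose) i
    rw [h'] at h1
    exact h1
  · exact ((G i).ext p).choose_spec

/-- one step -/
def stp (c : ∀ i, Cov (k + i) (G (i + 1)) (G i)) (pl : ℕ) (s : ∀ i, (G i).P → (G i).P) :
    ∀ i, (G i).P → (G i).P :=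
  fun i => (c i).φ pl (s (i + 1))

lemma stp_str {pl : ℕ} {s : ∀ i, (G i).P → (G i).P} (h : ∀ i, (G i).Str (s i)) (i : ℕ) :
    (G i).Str (stp c pl s i) := (c i).φ_str pl _ (h (i + 1))

lemma itr_str {pl : ℕ} (N : ℕ) : ∀ {s : ∀ i, (G i).P → (G i).P} (_ : ∀ i, (G i).Str (s i)) (i : ℕ),
    (G i).Str ((stp c pl)^[N] s i) := by
  induction N with
  | zero => intro s h i; exact h i
  | succ N ih =>
    intro s h i
    rw [Function.iterate_succ_apply]
    exact ih (fun j => stp_str h j) i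

lemma stp_agree {pl m : ℕ} {s s' : ∀ i, (G i).P → (G i).P} (h : ∀ i, (G i).Str (s i))
    (h' : ∀ i, (G i).Str (s' i)) (hs : ∀ i p, (G i).lvl p < m + i → s i p = s' i p) :
    ∀ i p, (G i).lvl p < m + 1 + i → stp c pl s i p = stp c pl s' i p := by
  intro i p hp
  exact (c i).φ_loc pl _ _ (h _) (h' _) ((G i).lvl p) (fun q hq => hs _ _ (by omega)) p le_rfl

lemma tra_agree (hf : (Lim c).Str f) (pl : ℕ) :
    ∀ i p, (G i).lvl p < k + i → tra f i p = stp c pl (tra f) i p := by
  intro i p hp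
  obtain ⟨t, rfl⟩ := lp_exists (c := c) p hp.le
  have hl : (Lim c).lvl t < k + i := by rw [lp_lvl] at hp; exact hp
  rw [tra_eq t hl, stp]
  have h1 : t.1 i = (c i).π (t.1 (i + 1)) := (t.2 i).symm
  rw [h1, (c i).φ_low pl _ (tra_str hf _) _ (by rw [lp_lvl]; exact hl),
    tra_eq t (by omega), (f t).2 i]

lemma itr_agree (hf : (Lim c).Str f) (pl N : ℕ) :
    ∀ i p, (G i).lvl p < k + N + i →
      (stp c pl)^[N] (tra f) i p = (stp c pl)^[N + 1] (tra f) i p := by
  induction N with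
  | zero => exact tra_agree hf pl
  | succ N ih =>
    intro i p hp
    have e1 := Function.iterate_succ_apply' (stp c pl) N (tra f)
    have e2 := Function.iterate_succ_apply' (stp c pl) (N + 1) (tra f)
    rw [e2]
    conv_lhs => rw [e1]
    exact stp_agree (m := k + N) (itr_str N (fun j => tra_str hf j))
      (s' := (stp c pl)^[N + 1] (tra f)) (itr_str (N + 1) (fun j => tra_str hf j)) ih i p (by omega)

/-- the limit strategies -/
noncomputable def sg (f : (Lim c).P → (Lim c).P) (pl i : ℕ) (p : (G i).P) : (G i).P :=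
  (stp c pl)^[(G i).lvl p + 1] (tra f) i p

lemma itr_eq_sg (hf : (Lim c).Str f) (pl : ℕ) {N i : ℕ} {p : (G i).P}
    (hN : (G i).lvl p + 1 ≤ N) : (stp c pl)^[N] (tra f) i p = sg f pl i p := by
  induction N, hN using Nat.le_induction with
  | base => rfl
  | succ N hN ih => rw [← ih, ← itr_agree hf pl N i p (by omega)]

lemma sg_low (hf : (Lim c).Str f) (pl : ℕ) {i : ℕ} {p : (G i).P} (hp : (G i).lvl p < k + i) :
    sg f pl i p = tra f i p := by
  have : ∀ N, (stp c pl)^[N] (tra f) i p = tra f i p := by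
    intro N
    induction N with
    | zero => rfl
    | succ N ih => rw [← itr_agree hf pl N i p (by omega), ih]
  exact this _

lemma sg_str (hf : (Lim c).Str f) (pl i : ℕ) : (G i).Str (sg f pl i) :=
  fun p => itr_str _ (fun j => tra_str hf j) i p

lemma sg_step (hf : (Lim c).Str f) (pl i : ℕ) : sg f pl i = (c i).φ pl (sg f pl (i + 1)) := by
  funext p
  rw [← itr_eq_sg hf pl (N := (G i).lvl p + 1 + 1) (by omega), Function.iterate_succ_apply', stp]
  exact (c i).φ_loc pl _ _ (itr_str _ (fun j => tra_str hf j) _) (sg_str hf pl _) ((G i).lvl p)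
    (fun q hq => itr_eq_sg hf pl (by omega)) p le_rfl

lemma tra_congr {n : ℕ} (hfg : ∀ q, (Lim c).lvl q ≤ n → f q = g q) {i : ℕ} {p : (G i).P}
    (hp : (G i).lvl p ≤ n) : tra f i p = tra g i p := by
  unfold tra
  split_ifs with h
  · rw [hfg]
    change (G 0).lvl _ ≤ n
    rw [← lp_lvl _ i, (lp_exists (c := c) p h.le).choose_spec]
    exact hp
  · rfl

lemma itr_congr (pl n N : ℕ) : ∀ {s s' : ∀ i, (G i).P → (G i).P} (_ : ∀ i, (G i).Str (s i))
    (_ : ∀ i, (G i).Str (s' i)) (_ : ∀ i p, (G i).lvl p ≤ n → s i p = s' i p),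
    ∀ i p, (G i).lvl p ≤ n → (stp c pl)^[N] s i p = (stp c pl)^[N] s' i p := by
  induction N with
  | zero => intro s s' _ _ h; exact h
  | succ N ih =>
    intro s s' hs hs' h i p hp
    rw [Function.iterate_succ_apply, Function.iterate_succ_apply]
    refine ih (fun j => stp_str hs j) (fun j => stp_str hs' j) (fun j q hq => ?_) i p hp
    exact (c j).φ_loc pl _ _ (hs _) (hs' _) n (fun r hr => h _ _ hr) q hq

variable (c) in
/-- The covering of the first game by the inverse limit. -/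
noncomputable def limCov : Cov k (Lim c) (G 0) where
  π := fun t => t.1 0
  lvl_π := fun _ => rfl
  par_π := fun t ht => (lpar_pos ht 0).symm
  inj := fun p q hp _ h => lp_ext (i := 0) hp h
  surj := fun p hp => lp_exists (i := 0) p hp
  φ := fun pl f => sg f pl 0
  φ_str := fun pl f hf => sg_str hf pl 0
  φ_loc := fun pl f g hf hg n h p hp => by
    unfold sg
    exact itr_congr pl n _ (fun j => tra_str hf j) (fun j => tra_str hg j)
      (fun i q hq => tra_congr h hq) 0 p hp
  φ_low := fun pl f hf q hq => by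
    rw [sg_low hf pl (i := 0) hq]
    exact tra_eq (i := 0) q hq
  φ_lift := fun pl f hf x hx hfol => by
    have hstep : ∀ (i : ℕ) (y : {y : ℕ → (G i).P // (G i).Play y ∧ (G i).Fol pl (sg f pl i) y}),
        ∃ z : {y : ℕ → (G (i + 1)).P // (G (i + 1)).Play y ∧
          (G (i + 1)).Fol pl (sg f pl (i + 1)) y}, ∀ n, (c i).π (z.1 n) = y.1 n := by
      rintro i ⟨y, h1, h2⟩
      rw [sg_step hf pl i] at h2
      obtain ⟨z, h3, h4, h5⟩ := (c i).φ_lift pl _ (sg_str hf pl (i + 1)) y h1 h2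
      exact ⟨⟨z, h3, h4⟩, h5⟩
    let X : ∀ i, {y : ℕ → (G i).P // (G i).Play y ∧ (G i).Fol pl (sg f pl i) y} := fun i =>
      Nat.rec (motive := fun i => {y : ℕ → (G i).P // (G i).Play y ∧ (G i).Fol pl (sg f pl i) y})
        ⟨x, hx, hfol⟩ (fun i y => (hstep i y).choose) i
    have hX : ∀ i n, (c i).π ((X (i + 1)).1 n) = (X i).1 n := fun i => (hstep i (X i)).choose_spec
    have hplay : (Lim c).Play (fun n => ⟨fun i => (X i).1 n, fun i => hX i n⟩) :=
      ⟨hx.1, fun n => lim_child_of (fun i => (X i).2.1.child n)⟩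
    refine ⟨fun n => ⟨fun i => (X i).1 n, fun i => hX i n⟩, hplay, ?_, fun n => rfl⟩
    intro n hn
    have hln := hplay.lvl n
    apply lp_ext (i := n + 1)
    · have := hplay.lvl (n + 1)
      change (G 0).lvl ((X 0).1 (n + 1)) = n + 1 at this
      change (G 0).lvl ((X 0).1 (n + 1)) ≤ _
      omega
    · rw [← tra_eq (f := f) _ (i := n + 1) (by rw [hln]; omega),
        ← sg_low hf pl (by rw [lp_lvl]; change (Lim c).lvl _ < _; rw [hln]; omega)]
      exact (X (n + 1)).2.2 n hn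

end

end Q203.BD
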