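import Pool.Agent.Q203.BD.Limit

/-!
# Borel determinacy, part 8: Martin's theorem
-/

set_option autoImplicit false

namespace Q203.BD

open Gm

universe u

/-- `A` can be unraveled in every covering -/
def UU (G : Gm.{u}) (A : Set (ℕ → G.P)) : Prop :=
  ∀ (G' : Gm.{u}) (c : Cov 0 G' G) (k : ℕ), ∃ (G'' : Gm.{u}) (d : Cov k G'' G') (N : ℕ),
    FD G'' N ((c.comp (d.mono (Nat.zero_le k))).pre A)

lemma fd_congr {G : Gm.{u}} {N : ℕ} {A B : Set (ℕ → G.P)}
    (h : ∀ x, G.Play x → (x ∈ A ↔ x ∈ B)) (hA : FD G N A) : FD G N B := by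
  intro x y hx hy hxy
  rw [← h x hx, ← h y hy]
  exact hA x y hx hy hxy

/-- a set of plays given by an upward closed set of positions -/
lemma uu_open {G : Gm.{u}} {O : Set G.P} (hO : ∀ p c, p ∈ O → G.Child p c → c ∈ O)
    {A : Set (ℕ → G.P)} (hA : ∀ x, G.Play x → (x ∈ A ↔ ∃ n, x n ∈ O)) : UU G A := by
  intro G' c k
  refine ⟨Unr G' k (c.π ⁻¹' O), unrCov G' k (c.π ⁻¹' O), k + 2, ?_⟩
  have h := unr_decides (G := G') (k := k) (O := c.π ⁻¹' O)
    (fun p q hp hq => hO _ _ hp (c.child hq))
  refine fd_congr (fun x hx => ?_) h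
  have h1 : G.Play (fun n => c.π ((unrCov G' k (c.π ⁻¹' O)).π (x n))) :=
    c.play ((unrCov G' k (c.π ⁻¹' O)).play hx)
  exact (hA _ h1).symm

lemma uu_compl {G : Gm.{u}} {A : Set (ℕ → G.P)} (h : UU G A) : UU G Aᶜ := by
  intro G' c k
  obtain ⟨G'', d, N, hd⟩ := h G' c k
  refine ⟨G'', d, N, fun x y hx hy hxy => ?_⟩
  exact not_congr (hd x y hx hy hxy)

/-- a stage of the construction -/
structure Stage (G' : Gm.{u}) : Type (u + 1) where
  H : Gm.{u}
  C : Cov 0 H G'

theorem uu_iUnion {G : Gm.{u}} {A : ℕ → Set (ℕ → G.P)} (h : ∀ i, UU G (A i)) :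
    UU G (⋃ i, A i) := by
  classical
  intro G' c k
  have hn : ∀ (i : ℕ) (s : Stage G'), ∃ (G'' : Gm.{u}) (d : Cov (k + i) G'' s.H) (N : ℕ),
      FD G'' N (((c.comp s.C).comp (d.mono (Nat.zero_le _))).pre (A i)) :=
    fun i s => h i s.H (c.comp s.C) (k + i)
  choose nG nd nN hnF using hn
  let st : ℕ → Stage G' := fun i => Nat.rec (motive := fun _ => Stage G') ⟨G', Cov.id 0 G'⟩
    (fun i s => ⟨nG i s, s.C.comp ((nd i s).mono (Nat.zero_le _))⟩) i
  let G1 : ℕ → Gm.{u} := fun i => (st i).H
  let cc : ∀ i, Cov (k + i) (G1 (i + 1)) (G1 i) := fun i => nd i (st i)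
  have hC : ∀ (t : (Lim cc).P) (i : ℕ), (st i).C.π (t.1 i) = t.1 0 := by
    intro t i
    induction i with
    | zero => rfl
    | succ i ih => rw [← ih, ← t.2 i]; rfl
  have hFD : ∀ i, FD (Lim cc) (nN i (st i)) {x | (fun n => c.π ((x n).1 0)) ∈ A i} := by
    intro i x y hx hy hxy
    have h1 := hnF i (st i) (fun n => (x n).1 (i + 1)) (fun n => (y n).1 (i + 1))
      (lim_play hx (i + 1)) (lim_play hy (i + 1)) (by simp only [hxy])
    have e : ∀ z : ℕ → (Lim cc).P, (fun n => c.π ((z n).1 0)) =
        (fun n => c.π ((st (i + 1)).C.π ((z n).1 (i + 1)))) := by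
      intro z; funext n; exact congrArg c.π (hC (z n) (i + 1)).symm
    have h2 : (fun n => c.π ((x n).1 0)) ∈ A i ↔ (fun n => c.π ((y n).1 0)) ∈ A i := by
      rw [e x, e y]
      exact h1
    exact h2
  let O : Set (Lim cc).P := {t | ∀ y, (Lim cc).Play y → y ((Lim cc).lvl t) = t →
    (fun n => c.π ((y n).1 0)) ∈ ⋃ i, A i}
  have hO : ∀ p q, p ∈ O → (Lim cc).Child p q → q ∈ O := by
    intro p q hp hq y hy hyq
    apply hp y hy
    rw [hq.1] at hyq
    calc y ((Lim cc).lvl p) = (Lim cc).par (y ((Lim cc).lvl p + 1)) := (hy.par _).symm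
      _ = (Lim cc).par q := by rw [hyq]
      _ = p := hq.2
  refine ⟨Unr (Lim cc) k O, (limCov cc).comp (unrCov (Lim cc) k O), k + 2, ?_⟩
  refine fd_congr (fun x hx => ?_) (unr_decides (G := Lim cc) (k := k) (O := O) hO)
  have hy : (Lim cc).Play (fun n => (unrCov (Lim cc) k O).π (x n)) := (unrCov (Lim cc) k O).play hx
  constructor
  · rintro ⟨n, hn⟩
    change (unrCov (Lim cc) k O).π (x n) ∈ O at hn
    exact hn _ hy (by rw [hy.lvl])
  · intro hx1
    have hx2 : (fun n => c.π (((unrCov (Lim cc) k O).π (x n)).1 0)) ∈ ⋃ i, A i := hx1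
    obtain ⟨i, hi⟩ := Set.mem_iUnion.1 hx2
    refine ⟨nN i (st i), ?_⟩
    change (unrCov (Lim cc) k O).π (x (nN i (st i))) ∈ O
    intro z hz hzn
    have h4 := hy.lvl (nN i (st i))
    rw [h4] at hzn
    exact Set.mem_iUnion.2 ⟨i, (hFD i z _ hz hy hzn).2 hi⟩

/-- Determinacy for sets decided at a finite level. -/
theorem fd_det {G : Gm.{u}} (hroot : ∀ p q, G.lvl p = 0 → G.lvl q = 0 → p = q) {N : ℕ}
    {A : Set (ℕ → G.P)} (hA : FD G N A) :
    (∃ f, G.Str f ∧ ∀ x, G.Play x → G.Fol 0 f x → x ∈ A) ∨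
      (∃ f, G.Str f ∧ ∀ x, G.Play x → G.Fol 1 f x → x ∉ A) := by
  classical
  let U : Set G.P := {p | G.lvl p = N ∧ ∃ y, G.Play y ∧ y ∈ A ∧ y N = p}
  by_cases hw : ∃ p, G.lvl p = 0 ∧ Win G Set.univ U 0 p
  · left
    obtain ⟨p, hp0, hp⟩ := hw
    refine ⟨wst G Set.univ U 0, wst_child, fun x hx hf => ?_⟩
    obtain ⟨m, _, hm⟩ := reach (S := Set.univ) (U := U) (i := 0) (n := 0) hx
      (by rw [hroot (x 0) p (hx.lvl 0) hp0]; exact hp) (fun _ _ _ _ _ => trivial)
      (fun m _ he _ _ => hf m he)
    obtain ⟨h1, y, hy, hyA, hyN⟩ := hm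
    rw [hx.lvl] at h1
    subst h1
    exact (hA x y hx hy hyN.symm).2 hyA
  · right
    push Not at hw
    let g : G.P → G.P := fun p => if h : ∃ c, G.Child p c ∧ ¬ Win G Set.univ U 0 c then h.choose
      else (G.ext p).choose
    have hg : G.Str g := by
      intro p
      simp only [g]
      split_ifs with h
      · exact h.choose_spec.1
      · exact (G.ext p).choose_spec
    refine ⟨g, hg, fun x hx hf hxA => ?_⟩
    have key : ∀ n, ¬ Win G Set.univ U 0 (x n) := by
      intro n
      induction n with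
      | zero => exact hw _ (hx.lvl 0)
      | succ n ih =>
        by_cases he : Even (n + 0)
        · intro hwn
          exact ih (win_mine (by rw [hx.lvl]; exact he) (hx.child n) trivial hwn)
        · rw [hf n (by grind)]
          have h : ∃ c, G.Child (x n) c ∧ ¬ Win G Set.univ U 0 c := by
            by_contra hcon
            push Not at hcon
            exact ih (win_opp (by rw [hx.lvl]; exact he) (fun c hc _ => hcon c hc))
          simp only [g]
          rw [dif_pos h]
          exact h.choose_spec.2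
    exact key N (win_of_mem ⟨hx.lvl N, x, hx, hxA, rfl⟩)

/-- Unravelable sets are determined. -/
theorem uu_det {G : Gm.{u}} (hroot : ∀ p q, G.lvl p = 0 → G.lvl q = 0 → p = q)
    {A : Set (ℕ → G.P)} (hA : UU G A) :
    (∃ f, G.Str f ∧ ∀ x, G.Play x → G.Fol 0 f x → x ∈ A) ∨
      (∃ f, G.Str f ∧ ∀ x, G.Play x → G.Fol 1 f x → x ∉ A) := by
  obtain ⟨G', d, N, hd⟩ := hA G (Cov.id 0 G) 0
  have hroot' : ∀ p q, G'.lvl p = 0 → G'.lvl q = 0 → p = q := by
    intro p q hp hq
    exact d.inj p q hp.le hq.le (hroot _ _ (by rw [d.lvl_π]; exact hp)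
      (by rw [d.lvl_π]; exact hq))
  rcases fd_det hroot' hd with ⟨f, hf, h⟩ | ⟨f, hf, h⟩
  · left
    refine ⟨d.φ 0 f, d.φ_str 0 f hf, fun x hx hfol => ?_⟩
    obtain ⟨x', h1, h2, h3⟩ := d.φ_lift 0 f hf x hx hfol
    have h4 : (fun n => d.π (x' n)) ∈ A := h x' h1 h2
    rwa [show (fun n => d.π (x' n)) = x from funext h3] at h4
  · right
    refine ⟨d.φ 1 f, d.φ_str 1 f hf, fun x hx hfol => ?_⟩
    obtain ⟨x', h1, h2, h3⟩ := d.φ_lift 1 f hf x hx hfol
    have h4 : ¬ (fun n => d.π (x' n)) ∈ A := h x' h1 h2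
    rwa [show (fun n => d.π (x' n)) = x from funext h3] at h4

/-! ### Games on sequences -/

/-- The tree of finite sequences, the last move first. -/
def Seq (X : Type u) [Nonempty X] : Gm.{u} where
  P := List X
  lvl := List.length
  par := List.tail
  lvl_par := fun p => by simp
  ext := fun p => ⟨Classical.arbitrary X :: p, rfl, rfl⟩

/-- The history of a play: the first `n` moves, the last one first. -/
def hist {X : Type u} (z : ℕ → X) : ℕ → List X
  | 0 => []
  | n + 1 => z n :: hist z n

variable {X : Type u}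

@[simp] lemma hist_zero (z : ℕ → X) : hist z 0 = [] := rfl

@[simp] lemma hist_succ (z : ℕ → X) (n : ℕ) : hist z (n + 1) = z n :: hist z n := rfl

@[simp] lemma length_hist (z : ℕ → X) (n : ℕ) : (hist z n).length = n := by
  induction n with
  | zero => rfl
  | succ n ih => simp [ih]

lemma hist_eq_iff (z w : ℕ → X) (n : ℕ) : hist z n = hist w n ↔ ∀ m, m < n → z m = w m := by
  induction n with
  | zero => simp
  | succ n ih =>
    rw [hist_succ, hist_succ, List.cons.injEq, ih]
    constructor
    · rintro ⟨h1, h2⟩ m hm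
      rcases Nat.lt_succ_iff_lt_or_eq.1 hm with h | h
      · exact h2 m h
      · rw [h, h1]
    · intro h
      exact ⟨h n (Nat.lt_succ_self n), fun m hm => h m (by omega)⟩

variable [Nonempty X]

lemma seq_play_hist (z : ℕ → X) : (Seq X).Play (hist z) :=
  ⟨rfl, fun n => ⟨by change (hist z (n + 1)).length = (hist z n).length + 1; simp, rfl⟩⟩

/-- the sequence of moves of a play -/
noncomputable def mv (x : ℕ → List X) (n : ℕ) : X := (x (n + 1)).head?.getD (Classical.arbitrary X)

lemma mv_hist (z : ℕ → X) : mv (hist z) = z := by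
  funext n
  simp [mv]

lemma hist_mv {x : ℕ → (Seq X).P} (hx : (Seq X).Play x) : hist (mv x) = x := by
  funext n
  induction n with
  | zero =>
    have h : (x 0 : List X).length = 0 := hx.1
    rw [hist_zero]
    exact (List.length_eq_zero_iff.1 h).symm
  | succ n ih =>
    have h1 : (x (n + 1) : List X).length = (x n : List X).length + 1 := (hx.2 n).1
    have h2 : (x (n + 1) : List X).tail = x n := (hx.2 n).2
    rw [hist_succ, ih, ← h2]
    cases hc : (x (n + 1) : List X) with
    | nil =>
      have h3 : (x (n + 1) : List X).length = 0 := by rw [hc]; rfl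
      omega
    | cons a l =>
      have h4 : mv x n = a := by
        unfold mv
        have h5 : x (n + 1) = (a :: l : List X) := hc
        rw [h5]; rfl
      rw [h4]; rfl

lemma seq_str_eq {f : (Seq X).P → (Seq X).P} (hf : (Seq X).Str f) (l : List X) :
    (f l : List X) = (f l : List X).head?.getD (Classical.arbitrary X) :: l := by
  have h2 := hf l
  have h3 : (f l : List X).length = l.length + 1 := h2.1
  have h4 : (f l : List X).tail = l := h2.2
  cases hc : (f l : List X) with
  | nil => rw [hc] at h3; simp at h3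
  | cons a t =>
    rw [hc] at h4
    simp only [List.tail_cons] at h4
    rw [h4]; rfl

/-- **Martin's theorem (Borel determinacy).** Let `X` be a nonempty set with the discrete topology
and `A` a Borel set of sequences in `X`. Two players alternately play elements of `X`; the first
player wins if the resulting sequence is in `A`. Then one of the players has a winning strategy. -/
theorem borel_determinacy [TopologicalSpace X] [DiscreteTopology X] {A : Set (ℕ → X)}
    (hA : @MeasurableSet (ℕ → X) (borel (ℕ → X)) A) :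
    (∃ σ : List X → X, ∀ z : ℕ → X, (∀ n, Even n → z n = σ (hist z n)) → z ∈ A) ∨
      (∃ τ : List X → X, ∀ z : ℕ → X, (∀ n, ¬ Even n → z n = τ (hist z n)) → z ∉ A) := by
  have hUU : UU (Seq X) {x | mv x ∈ A} := by
    let _ : MeasurableSpace (ℕ → X) := borel (ℕ → X)
    have _ : BorelSpace (ℕ → X) := ⟨rfl⟩
    induction A, hA using MeasurableSet.induction_on_open with
    | isOpen U hU =>
      let O : Set (Seq X).P := {p : List X | ∀ z : ℕ → X, hist z p.length = p → z ∈ U}
      refine uu_open (O := O) ?_ ?_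
      · intro p c hp hc z hz
        have h1 : (c : List X).length = (p : List X).length + 1 := hc.1
        have h2 : (c : List X).tail = p := hc.2
        rw [h1, hist_succ] at hz
        apply hp z
        rw [← h2, ← hz]
        simp
      · intro x hx
        constructor
        · intro hxU
          have hxU' : mv x ∈ U := hxU
          obtain ⟨I, v, hv, hvU⟩ := isOpen_pi_iff.1 hU (mv x) hxU'
          obtain ⟨N, hN⟩ : ∃ N, ∀ i ∈ I, i < N :=
            ⟨I.sup id + 1, fun i hi => Nat.lt_succ_of_le (Finset.le_sup (f := id) hi)⟩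
          refine ⟨N, fun z hz => hvU (fun i hi => ?_)⟩
          have h3 : (x N : List X).length = N := hx.lvl N
          rw [h3] at hz
          have h4 : hist z N = hist (mv x) N := by rw [hz, hist_mv hx]
          rw [(hist_eq_iff _ _ _).1 h4 i (hN i hi)]
          exact (hv i hi).2
        · rintro ⟨n, hn⟩
          have h3 : (x n : List X).length = n := hx.lvl n
          refine hn (mv x) ?_
          rw [h3, hist_mv hx]
    | compl t ht ih => exact uu_compl ih
    | iUnion f hd hm ih =>
      have : {x : ℕ → (Seq X).P | mv x ∈ ⋃ i, f i} = ⋃ i, {x | mv x ∈ f i} := by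
        ext x
        constructor
        · intro h
          obtain ⟨i, hi⟩ := Set.mem_iUnion.1 (show mv x ∈ ⋃ i, f i from h)
          exact Set.mem_iUnion.2 ⟨i, hi⟩
        · intro h
          obtain ⟨i, hi⟩ := Set.mem_iUnion.1 h
          exact (Set.mem_iUnion (x := mv x) (s := f)).2 ⟨i, hi⟩
      rw [this]
      exact uu_iUnion ih
  have hroot : ∀ p q, (Seq X).lvl p = 0 → (Seq X).lvl q = 0 → p = q := by
    intro p q hp hq
    have h1 : (p : List X) = [] := List.length_eq_zero_iff.1 hp
    have h2 : (q : List X) = [] := List.length_eq_zero_iff.1 hq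
    exact h1.trans h2.symm
  rcases uu_det hroot hUU with ⟨f, hf, h⟩ | ⟨f, hf, h⟩
  · left
    refine ⟨fun l => (f l : List X).head?.getD (Classical.arbitrary X), fun z hz => ?_⟩
    have h1 : mv (hist z) ∈ A := h (hist z) (seq_play_hist z) (fun n hn => by
      rw [hist_succ, hz n hn]
      exact (seq_str_eq hf (hist z n)).symm)
    rwa [mv_hist] at h1
  · right
    refine ⟨fun l => (f l : List X).head?.getD (Classical.arbitrary X), fun z hz => ?_⟩
    have h1 : ¬ mv (hist z) ∈ A := h (hist z) (seq_play_hist z) (fun n hn => by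
      rw [hist_succ, hz n (by grind)]
      exact (seq_str_eq hf (hist z n)).symm)
    rwa [mv_hist] at h1

end Q203.BD
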