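import Pool.Agent.Q203.BD.Str

/-!
# Borel determinacy, part 5: the covering unraveling a closed set
-/

set_option autoImplicit false

namespace Q203.BD

open Gm

universe u

variable {G : Gm.{u}} {k : ℕ} {O : Set G.P}

/-- first component of the auxiliary information -/
def secS : Aux G → Set G.P
  | Aux.one S => S
  | _ => ∅

/-- second component of the auxiliary information -/
def secT : Aux G → Set G.P
  | Aux.good _ T => T
  | _ => ∅

open Classical in
/-- strategies for the player who moves at level `k` -/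
noncomputable def φI (f : (Unr G k O).P → (Unr G k O).P) (p : G.P) : G.P :=
  if G.lvl p ≤ k then ap f p Aux.none
  else
    if Met G O (k + 2) p then
      ap f p (Aux.bad (secS (apA f (G.anc k p) Aux.none)) (fst G O (k + 2) p))
    else
      if Legal G k O p (Aux.good (secS (apA f (G.anc k p) Aux.none))
        (tr G (secS (apA f (G.anc k p) Aux.none)) O k (G.anc (k + 2) p))) then
        ap f p (Aux.good (secS (apA f (G.anc k p) Aux.none))
          (tr G (secS (apA f (G.anc k p) Aux.none)) O k (G.anc (k + 2) p)))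
      else wst G (secS (apA f (G.anc k p) Aux.none)) O k p

/-- targets reachable by the other player -/
def tgt (f : (Unr G k O).P → (Unr G k O).P) (r : G.P) : Set G.P :=
  {v | ∃ S, Legal G k O r (Aux.one S) ∧ apA f r (Aux.one S) = Aux.bad S v}

/-- a witness -/
noncomputable def tgtS (f : (Unr G k O).P → (Unr G k O).P) (r v : G.P) : Set G.P :=
  Classical.epsilon (fun S => Legal G k O r (Aux.one S) ∧ apA f r (Aux.one S) = Aux.bad S v)

lemma tgtS_spec {f : (Unr G k O).P → (Unr G k O).P} {r v : G.P} (h : v ∈ tgt f r) :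
    Legal G k O r (Aux.one (tgtS f r v)) ∧
      apA f r (Aux.one (tgtS f r v)) = Aux.bad (tgtS f r v) v :=
  Classical.epsilon_spec h

open Classical in
/-- strategies for the other player -/
noncomputable def φII (f : (Unr G k O).P → (Unr G k O).P) (p : G.P) : G.P :=
  if G.lvl p ≤ k then ap f p Aux.none
  else
    if Met G (tgt f (G.anc (k + 1) p)) (k + 2) p then
      ap f p (Aux.bad (tgtS f (G.anc (k + 1) p) (fst G (tgt f (G.anc (k + 1) p)) (k + 2) p))
        (fst G (tgt f (G.anc (k + 1) p)) (k + 2) p))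
    else
      if Legal G k O p (Aux.one (tr G Set.univ (tgt f (G.anc (k + 1) p)) (k + 1)
        (G.anc (k + 1) p))) then
        ap f p (Aux.one (tr G Set.univ (tgt f (G.anc (k + 1) p)) (k + 1) (G.anc (k + 1) p)))
      else
        if Legal G k O p (Aux.good (tr G Set.univ (tgt f (G.anc (k + 1) p)) (k + 1)
          (G.anc (k + 1) p)) (secT (apA f (G.anc (k + 1) p)
          (Aux.one (tr G Set.univ (tgt f (G.anc (k + 1) p)) (k + 1) (G.anc (k + 1) p)))))) then
          ap f p (Aux.good (tr G Set.univ (tgt f (G.anc (k + 1) p)) (k + 1)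
          (G.anc (k + 1) p)) (secT (apA f (G.anc (k + 1) p)
          (Aux.one (tr G Set.univ (tgt f (G.anc (k + 1) p)) (k + 1) (G.anc (k + 1) p))))))
        else wst G Set.univ (tgt f (G.anc (k + 1) p)) (k + 1) p

variable {f g : (Unr G k O).P → (Unr G k O).P}

lemma φI_str (hf : (Unr G k O).Str f) : G.Str (φI f) := by
  intro p
  unfold φI
  split_ifs
  · exact ap_child hf _ _
  · exact ap_child hf _ _
  · exact ap_child hf _ _
  · exact wst_child _

lemma φII_str (hf : (Unr G k O).Str f) : G.Str (φII f) := by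
  intro p
  unfold φII
  split_ifs
  · exact ap_child hf _ _
  · exact ap_child hf _ _
  · exact ap_child hf _ _
  · exact ap_child hf _ _
  · exact wst_child _

lemma φI_loc {n : ℕ} (hfg : ∀ q, (Unr G k O).lvl q ≤ n → f q = g q) {p : G.P}
    (hp : G.lvl p ≤ n) : φI f p = φI g p := by
  unfold φI
  by_cases h : G.lvl p ≤ k
  · rw [if_pos h, if_pos h]; exact ap_congr hfg hp _
  · rw [if_neg h, if_neg h]
    rw [apA_congr hfg (p := G.anc k p) (by rw [lvl_anc (by omega)]; omega)]
    rw [ap_congr hfg hp, ap_congr hfg hp]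

lemma tgt_congr {n : ℕ} (hfg : ∀ q, (Unr G k O).lvl q ≤ n → f q = g q) {r : G.P}
    (hr : G.lvl r ≤ n) : tgt f r = tgt g r := by
  unfold tgt
  ext v
  constructor
  · rintro ⟨S, h1, h2⟩
    exact ⟨S, h1, by rw [← apA_congr hfg hr]; exact h2⟩
  · rintro ⟨S, h1, h2⟩
    exact ⟨S, h1, by rw [apA_congr hfg hr]; exact h2⟩

lemma tgtS_congr {n : ℕ} (hfg : ∀ q, (Unr G k O).lvl q ≤ n → f q = g q) {r v : G.P}
    (hr : G.lvl r ≤ n) : tgtS f r v = tgtS g r v := by
  have h : (fun S => Legal G k O r (Aux.one S) ∧ apA f r (Aux.one S) = Aux.bad S v) =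
      (fun S => Legal G k O r (Aux.one S) ∧ apA g r (Aux.one S) = Aux.bad S v) := by
    funext S
    rw [apA_congr hfg hr]
  unfold tgtS
  rw [h]

lemma φII_loc {n : ℕ} (hfg : ∀ q, (Unr G k O).lvl q ≤ n → f q = g q) {p : G.P}
    (hp : G.lvl p ≤ n) : φII f p = φII g p := by
  unfold φII
  by_cases h : G.lvl p ≤ k
  · rw [if_pos h, if_pos h]; exact ap_congr hfg hp _
  · rw [if_neg h, if_neg h]
    have hr : G.lvl (G.anc (k + 1) p) ≤ n := by rw [lvl_anc (by omega)]; omega
    rw [tgt_congr hfg hr]
    rw [apA_congr hfg hr]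
    rw [ap_congr hfg hp, ap_congr hfg hp, ap_congr hfg hp, tgtS_congr hfg hr]

lemma φI_low (z : (Unr G k O).P) (hz : (Unr G k O).lvl z < k) : φI f z.1.1 = (f z).1.1 := by
  obtain ⟨⟨p, a⟩, h⟩ := z
  have hp : G.lvl p < k := hz
  have ha : a = Aux.none := legal_low h hp.le
  subst ha
  unfold φI
  rw [if_pos hp.le, ap_eq h]

lemma φII_low (z : (Unr G k O).P) (hz : (Unr G k O).lvl z < k) : φII f z.1.1 = (f z).1.1 := by
  obtain ⟨⟨p, a⟩, h⟩ := z
  have hp : G.lvl p < k := hz
  have ha : a = Aux.none := legal_low h hp.le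
  subst ha
  unfold φII
  rw [if_pos hp.le, ap_eq h]

lemma exists_first {Q : ℕ → Prop} (h : ∃ m, Q m) : ∃ m, Q m ∧ ∀ l, l < m → ¬ Q l := by
  classical
  exact ⟨Nat.find h, Nat.find_spec h, fun l hl => Nat.find_min h hl⟩

theorem φI_lift (hf : (Unr G k O).Str f) {x : ℕ → G.P} (hx : G.Play x)
    (hfol : G.Fol k (φI f) x) :
    ∃ x' : ℕ → (Unr G k O).P, (Unr G k O).Play x' ∧ (Unr G k O).Fol k f x' ∧
      ∀ n, (x' n).1.1 = x n := by
  classical
  obtain ⟨S, hS⟩ := apA_k hf (hx.lvl k)
  have hlow : ∀ n, Even (n + k) → n ≤ k → x (n + 1) = ap f (x n) Aux.none := by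
    intro n hn hnk
    rw [hfol n hn, φI, if_pos (by rw [hx.lvl]; exact hnk)]
  have hk1 : x (k + 1) = ap f (x k) Aux.none := hlow k (by grind) le_rfl
  have hSL : Legal G k O (x (k + 1)) (Aux.one S) := by
    have h1 : Legal G k O (x k) Aux.none := by
      simp only [Legal]; rw [hx.lvl]
    have := (ap_legal hf h1).1
    rwa [hS, ← hk1] at this
  have hQ := hSL.2
  have hanc1 : ∀ n, k + 1 ≤ n → G.anc (k + 1) (x n) = x (k + 1) := fun n hn => hx.anc hn
  have hanc2 : ∀ n, k + 2 ≤ n → G.anc (k + 2) (x n) = x (k + 2) := fun n hn => hx.anc hn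
  set T := tr G S O k (x (k + 2)) with hT
  have hdef : ∀ n, k + 2 ≤ n → Even (n + k) → x (n + 1) =
      if Met G O (k + 2) (x n) then ap f (x n) (Aux.bad S (fst G O (k + 2) (x n)))
      else if Legal G k O (x n) (Aux.good S T) then ap f (x n) (Aux.good S T)
      else wst G S O k (x n) := by
    intro n hn he
    rw [hfol n he]
    conv_lhs => rw [φI]
    rw [if_neg (by rw [hx.lvl]; omega), hx.anc (show k ≤ n by omega), hS, hanc2 n hn]
    rfl
  have hk2S : x (k + 2) ∈ S :=
    hQ.opp _ hQ.root (by rw [hx.lvl]; grind) _ (hx.child _) trivial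
  have hoppS : ∀ n, k + 1 ≤ n → ¬ Even (n + k) → x n ∈ S → x (n + 1) ∈ S := fun n hn he h =>
    hQ.opp _ h (by rw [hx.lvl]; exact he) _ (hx.child _) trivial
  have hTL : ∀ n, k + 2 ≤ n → x n ∈ T → Legal G k O (x n) (Aux.good S T) := by
    intro n hn h
    refine ⟨by rw [hx.lvl]; exact hn, by rw [hanc1 n (by omega)]; exact hQ, ?_,
      fun q hq => tr_notU hq, h⟩
    rw [hanc2 n hn]
    have := tr_root h
    exact tr_qs this.1 this.2 (fun n => by grind)
  have H : ∀ n, k + 2 ≤ n → (∀ l, k + 2 ≤ l → l < n → x l ∉ O) →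
      x n ∈ S ∧ (x n ∈ T ∨ Win G S O k (x n)) := by
    intro n hn
    induction n, hn using Nat.le_induction with
    | base =>
      intro _
      refine ⟨hk2S, ?_⟩
      by_cases hw : Win G S O k (x (k + 2))
      · exact Or.inr hw
      · exact Or.inl (tr_self hk2S hw)
    | succ n hn ih =>
      intro hO
      obtain ⟨h1, h2⟩ := ih (fun l h h' => hO l h (by omega))
      have hnO : x n ∉ O := hO n hn (by omega)
      by_cases he : Even (n + k)
      · have hnm : ¬ Met G O (k + 2) (x n) := by
          rw [met_play hx]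
          rintro ⟨m, hm1, hm2, hm3⟩
          exact hO m hm1 (by omega) hm3
        have hd := hdef n hn he
        rw [if_neg hnm] at hd
        by_cases hxT : x n ∈ T
        · rw [if_pos (hTL n hn hxT)] at hd
          have h3 := ap_legal_high hf (hTL n hn hxT) (by rw [hx.lvl]; exact hn)
          rw [← hd] at h3
          exact ⟨(tr_mem h3.2.2.2.2).1, Or.inl h3.2.2.2.2⟩
        · rw [if_neg (fun h => hxT h.2.2.2.2)] at hd
          have h3 := wst_spec (h2.resolve_left hxT) hnO (by rw [hx.lvl]; exact he)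
          rw [← hd] at h3
          exact ⟨h3.1, Or.inr h3.2.1⟩
      · have h3 := hoppS n (by omega) he h1
        refine ⟨h3, ?_⟩
        by_cases hw : Win G S O k (x (n + 1))
        · exact Or.inr hw
        · rcases h2 with h2 | h2
          · exact Or.inl (tr_child h2 (hx.child n) h3 hw)
          · exfalso
            rcases win_cases h2 with h4 | ⟨h4, _⟩ | ⟨_, h4⟩
            · exact hnO h4
            · rw [hx.lvl] at h4; exact he h4
            · exact hw (h4 _ (hx.child n) h3).1
  by_cases hhit : ∃ m, k + 2 ≤ m ∧ x m ∈ O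
  · obtain ⟨m, ⟨hm, hmO⟩, hmin⟩ := exists_first hhit
    have hmin' : ∀ l, k + 2 ≤ l → l < m → x l ∉ O := fun l h1 h2 h3 => hmin l h2 ⟨h1, h3⟩
    have hmS := (H m hm hmin').1
    have hbad : ∀ n, k + 2 ≤ n → Legal G k O (x n) (Aux.bad S (x m)) := by
      intro n hn
      refine ⟨by rw [hx.lvl]; exact hn, by rw [hanc1 n (by omega)]; exact hQ, hmS,
        by rw [hx.lvl]; exact hm, hmO, ?_⟩
      simp only [hx.lvl]
      rcases le_total n m with h | h
      · exact Or.inl ⟨h, hx.anc h⟩
      · exact Or.inr ⟨h, hx.anc h⟩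
    refine lift_tail hx (S := S) (b := Aux.bad S (x m)) (by simp [parAux])
      (fun n hn => by simp only [parAux]; rw [if_neg (by omega)]) hSL hbad hf
      (fun n h1 h2 => hlow n h1 h2.le) (fun _ => ⟨hk1, hS⟩) (fun h => ?_) (fun n he hn => ?_)
    · exfalso; grind
    · rcases Nat.lt_or_ge n m with h | h
      · rw [bad_forced hf (hbad n hn) (by rw [hx.lvl, hx.lvl]; exact h), hx.lvl,
          hx.anc (by omega)]
      · rw [hdef n hn he, if_pos ((met_play hx).2 ⟨m, hm, h, hmO⟩),
          fst_play hx hm h hmO hmin']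
  · push Not at hhit
    by_cases hall : ∀ n, k + 2 ≤ n → x n ∈ T
    · refine lift_tail hx (S := S) (b := Aux.good S T) (by simp [parAux])
        (fun n hn => by simp only [parAux]; rw [if_neg (by omega)]) hSL
        (fun n hn => hTL n hn (hall n hn)) hf
        (fun n h1 h2 => hlow n h1 h2.le) (fun _ => ⟨hk1, hS⟩) (fun h => ?_) (fun n he hn => ?_)
      · exfalso; grind
      · rw [hdef n hn he, if_neg, if_pos (hTL n hn (hall n hn))]
        rw [met_play hx]
        rintro ⟨m, hm1, _, hm3⟩
        exact hhit m hm1 hm3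
    · exfalso
      push Not at hall
      obtain ⟨n, hn, hnT⟩ := hall
      have hW : Win G S O k (x n) := (H n hn (fun l h _ => hhit l h)).2.resolve_left hnT
      obtain ⟨m, hm1, hm2⟩ := reach (S := S) (U := O) (i := k) hx hW
        (fun m hm he _ _ => hoppS m (by omega) he (H m (by omega) (fun l h _ => hhit l h)).1)
        (fun m hm he _ _ => by
          rw [hdef m (by omega) he, if_neg, if_neg]
          · intro hL
            have h5 := tr_anc hL.2.2.2.2 (n := n) (by rw [hx.lvl]; exact hn)
              (by rw [hx.lvl]; exact hm)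
            rw [hx.anc hm] at h5
            exact hnT h5
          · rw [met_play hx]
            rintro ⟨l, hl1, _, hl3⟩
            exact hhit l hl1 hl3)
      exact hhit m (by omega) hm2

end Q203.BD
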