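import Pool.Agent.Q203.BD.Base

/-!
# Borel determinacy, part 2: open games inside a region
-/

set_option autoImplicit false

namespace Q203.BD

open Gm Ordinal

universe u

variable {G : Gm.{u}}

/-- player `i` can force, inside the region `S`, to reach `U`, with rank `α` -/
inductive W (G : Gm.{u}) (S U : Set G.P) (i : ℕ) : Ordinal.{u} → G.P → Prop
  | base {α : Ordinal.{u}} {q : G.P} : q ∈ U → W G S U i α q
  | mine {α β : Ordinal.{u}} {q c : G.P} : Even (G.lvl q + i) → G.Child q c → c ∈ S → β < α →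
      W G S U i β c → W G S U i α q
  | opp {α : Ordinal.{u}} {q : G.P} (b : G.P → Ordinal.{u}) : ¬ Even (G.lvl q + i) →
      (∀ c, G.Child q c → c ∈ S → b c < α) → (∀ c, G.Child q c → c ∈ S → W G S U i (b c) c) →
      W G S U i α q

/-- winning positions -/
def Win (G : Gm.{u}) (S U : Set G.P) (i : ℕ) (q : G.P) : Prop := ∃ α, W G S U i α q

/-- rank of a position -/
noncomputable def rk (G : Gm.{u}) (S U : Set G.P) (i : ℕ) (q : G.P) : Ordinal.{u} :=
  sInf {α | W G S U i α q}

variable {S U : Set G.P} {i : ℕ}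

lemma win_of_mem {q : G.P} (h : q ∈ U) : Win G S U i q := ⟨0, W.base h⟩

lemma win_mine {q c : G.P} (h1 : Even (G.lvl q + i)) (h2 : G.Child q c) (h3 : c ∈ S)
    (h4 : Win G S U i c) : Win G S U i q := by
  obtain ⟨β, hβ⟩ := h4
  exact ⟨Order.succ β, W.mine h1 h2 h3 (Order.lt_succ β) hβ⟩

lemma win_opp {q : G.P} (h1 : ¬ Even (G.lvl q + i))
    (h : ∀ c, G.Child q c → c ∈ S → Win G S U i c) : Win G S U i q := by
  classical
  let b : G.P → Ordinal.{u} := fun c => if h' : Win G S U i c then h'.choose else 0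
  have hb : ∀ c, Win G S U i c → W G S U i (b c) c := by
    intro c hc
    simp only [b, dif_pos hc]
    exact hc.choose_spec
  refine ⟨⨆ c, Order.succ (b c), W.opp b h1 (fun c _ _ => ?_) (fun c h2 h3 => hb c (h c h2 h3))⟩
  exact lt_of_lt_of_le (Order.lt_succ (b c)) (Ordinal.le_iSup (fun c => Order.succ (b c)) c)

lemma rk_spec {q : G.P} (h : Win G S U i q) : W G S U i (rk G S U i q) q :=
  csInf_mem (s := {α | W G S U i α q}) h

lemma rk_le {q : G.P} {α : Ordinal.{u}} (h : W G S U i α q) : rk G S U i q ≤ α :=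
  csInf_le' (s := {α | W G S U i α q}) h

lemma win_cases {q : G.P} (h : Win G S U i q) :
    q ∈ U ∨ (Even (G.lvl q + i) ∧ ∃ c, G.Child q c ∧ c ∈ S ∧ Win G S U i c ∧
      rk G S U i c < rk G S U i q) ∨
    (¬ Even (G.lvl q + i) ∧ ∀ c, G.Child q c → c ∈ S → Win G S U i c ∧
      rk G S U i c < rk G S U i q) := by
  have h1 := rk_spec h
  generalize hr : rk G S U i q = r at h1
  cases h1 with
  | base h => exact Or.inl h
  | mine h1 h2 h3 h4 h5 =>
    exact Or.inr (Or.inl ⟨h1, _, h2, h3, ⟨_, h5⟩, (rk_le h5).trans_lt h4⟩)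
  | opp b h1 h2 h3 =>
    exact Or.inr (Or.inr ⟨h1, fun c hc hS => ⟨⟨_, h3 c hc hS⟩, (rk_le (h3 c hc hS)).trans_lt
      (h2 c hc hS)⟩⟩)

open Classical in
/-- the winning strategy of the open game -/
noncomputable def wst (G : Gm.{u}) (S U : Set G.P) (i : ℕ) (q : G.P) : G.P :=
  if h : ∃ c, G.Child q c ∧ c ∈ S ∧ Win G S U i c ∧ rk G S U i c < rk G S U i q then h.choose
  else (G.ext q).choose

lemma wst_child (q : G.P) : G.Child q (wst G S U i q) := by
  unfold wst
  split_ifs with h
  · exact h.choose_spec.1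
  · exact (G.ext q).choose_spec

lemma wst_spec {q : G.P} (h : Win G S U i q) (hU : q ∉ U) (ht : Even (G.lvl q + i)) :
    wst G S U i q ∈ S ∧ Win G S U i (wst G S U i q) ∧
      rk G S U i (wst G S U i q) < rk G S U i q := by
  rcases win_cases h with h1 | ⟨_, h1⟩ | ⟨h1, _⟩
  · exact (hU h1).elim
  · unfold wst
    rw [dif_pos h1]
    exact h1.choose_spec.2
  · exact (h1 ht).elim

/-- Following the strategy from a winning position leads to the target. -/
theorem reach {x : ℕ → G.P} (hx : G.Play x) {n : ℕ} (hn : Win G S U i (x n))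
    (hopp : ∀ m, n ≤ m → ¬ Even (m + i) → Win G S U i (x m) → x m ∉ U → x (m + 1) ∈ S)
    (hmine : ∀ m, n ≤ m → Even (m + i) → Win G S U i (x m) →
      (∀ l, n ≤ l → l ≤ m → x l ∉ U) → x (m + 1) = wst G S U i (x m)) :
    ∃ m, n ≤ m ∧ x m ∈ U := by
  by_contra hcon
  push Not at hcon
  have key : ∀ d, Win G S U i (x (n + d)) ∧
      rk G S U i (x (n + d + 1)) < rk G S U i (x (n + d)) := by
    intro d
    induction d with
    | zero =>
      refine ⟨hn, ?_⟩
      simp only [Nat.add_zero]
      by_cases ht : Even (n + i)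
      · rw [hmine n le_rfl ht hn (fun l h1 _ => hcon l h1)]
        exact (wst_spec hn (hcon n le_rfl) (by rw [hx.lvl]; exact ht)).2.2
      · rcases win_cases hn with h1 | ⟨h1, _⟩ | ⟨_, h1⟩
        · exact (hcon n le_rfl h1).elim
        · rw [hx.lvl] at h1; exact (ht h1).elim
        · exact (h1 _ (hx.child n) (hopp n le_rfl ht hn (hcon n le_rfl))).2
    | succ d ih =>
      obtain ⟨ih1, _⟩ := ih
      have hW : Win G S U i (x (n + d + 1)) := by
        by_cases ht : Even (n + d + i)
        · rw [hmine (n + d) (by omega) ht ih1 (fun l h1 _ => hcon l h1)]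
          exact (wst_spec ih1 (hcon _ (by omega)) (by rw [hx.lvl]; exact ht)).2.1
        · rcases win_cases ih1 with h1 | ⟨h1, _⟩ | ⟨_, h1⟩
          · exact (hcon _ (by omega) h1).elim
          · rw [hx.lvl] at h1; exact (ht h1).elim
          · exact (h1 _ (hx.child _) (hopp _ (by omega) ht ih1 (hcon _ (by omega)))).1
      refine ⟨hW, ?_⟩
      change rk G S U i (x (n + d + 1 + 1)) < rk G S U i (x (n + d + 1))
      by_cases ht : Even (n + d + 1 + i)
      · rw [hmine (n + d + 1) (by omega) ht hW (fun l h1 _ => hcon l h1)]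
        exact (wst_spec hW (hcon _ (by omega)) (by rw [hx.lvl]; exact ht)).2.2
      · rcases win_cases hW with h1 | ⟨h1, _⟩ | ⟨_, h1⟩
        · exact (hcon _ (by omega) h1).elim
        · rw [hx.lvl] at h1; exact (ht h1).elim
        · exact (h1 _ (hx.child _) (hopp _ (by omega) ht hW (hcon _ (by omega)))).2
  have hlt : ∀ d, rk G S U i (x (n + (d + 1))) < rk G S U i (x (n + d)) := fun d => (key d).2
  exact (RelEmbedding.natGT (fun d => rk G S U i (x (n + d))) hlt).not_wellFounded
    (wellFounded_lt)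

end Q203.BD
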