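import Pool.Agent.Q203.BD.Unr

/-!
# Borel determinacy, part 4: transferring strategies from the auxiliary game
-/

set_option autoImplicit false

namespace Q203.BD

open Gm

universe u

variable {G : Gm.{u}} {k : ℕ} {O : Set G.P}

lemma legal_low {p : G.P} {a : Aux G} (h : Legal G k O p a) (hl : G.lvl p ≤ k) :
    a = Aux.none := by
  cases a with
  | none => rfl
  | one S => have := h.1; omega
  | bad S v => have := h.1; omega
  | good S T => have := h.1; omega

lemma legal_mid {p : G.P} {a : Aux G} (h : Legal G k O p a) (hl : G.lvl p = k + 1) :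
    ∃ S, a = Aux.one S := by
  cases a with
  | none => simp only [Legal] at h; omega
  | one S => exact ⟨S, rfl⟩
  | bad S v => have := h.1; omega
  | good S T => have := h.1; omega

lemma legal_high {p : G.P} {a : Aux G} (h : Legal G k O p a) (hl : k + 2 ≤ G.lvl p) :
    (∃ S v, a = Aux.bad S v) ∨ (∃ S T, a = Aux.good S T) := by
  cases a with
  | none => simp only [Legal] at h; omega
  | one S => have := h.1; omega
  | bad S v => exact Or.inl ⟨S, v, rfl⟩
  | good S T => exact Or.inr ⟨S, T, rfl⟩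

open Classical in
/-- response of a strategy of the auxiliary game -/
noncomputable def ap (f : (Unr G k O).P → (Unr G k O).P) (p : G.P) (a : Aux G) : G.P :=
  if h : Legal G k O p a then (f ⟨(p, a), h⟩).1.1 else (G.ext p).choose

open Classical in
/-- auxiliary part of the response -/
noncomputable def apA (f : (Unr G k O).P → (Unr G k O).P) (p : G.P) (a : Aux G) : Aux G :=
  if h : Legal G k O p a then (f ⟨(p, a), h⟩).1.2 else Aux.none

variable {f g : (Unr G k O).P → (Unr G k O).P}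

lemma ap_eq {p : G.P} {a : Aux G} (h : Legal G k O p a) : ap f p a = (f ⟨(p, a), h⟩).1.1 := by
  rw [ap, dif_pos h]

lemma apA_eq {p : G.P} {a : Aux G} (h : Legal G k O p a) : apA f p a = (f ⟨(p, a), h⟩).1.2 := by
  rw [apA, dif_pos h]

lemma ap_child (hf : (Unr G k O).Str f) (p : G.P) (a : Aux G) : G.Child p (ap f p a) := by
  unfold ap
  split_ifs with h
  · have h1 := hf ⟨(p, a), h⟩
    refine ⟨h1.1, ?_⟩
    have h2 := congrArg (fun z : (Unr G k O).P => z.1.1) h1.2
    exact h2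
  · exact (G.ext p).choose_spec

lemma ap_legal (hf : (Unr G k O).Str f) {p : G.P} {a : Aux G} (h : Legal G k O p a) :
    Legal G k O (ap f p a) (apA f p a) ∧ parAux k (G.lvl p + 1) (apA f p a) = a := by
  rw [ap_eq h, apA_eq h]
  refine ⟨(f ⟨(p, a), h⟩).2, ?_⟩
  have h1 := hf ⟨(p, a), h⟩
  have h2 := congrArg (fun z : (Unr G k O).P => z.1.2) h1.2
  have h3 : G.lvl (f ⟨(p, a), h⟩).1.1 = G.lvl p + 1 := h1.1
  rw [← h3]
  exact h2

lemma ap_congr {n : ℕ} (hfg : ∀ q, (Unr G k O).lvl q ≤ n → f q = g q) {p : G.P}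
    (hp : G.lvl p ≤ n) (a : Aux G) : ap f p a = ap g p a := by
  unfold ap
  split_ifs with h
  · rw [hfg ⟨(p, a), h⟩ hp]
  · rfl

lemma apA_congr {n : ℕ} (hfg : ∀ q, (Unr G k O).lvl q ≤ n → f q = g q) {p : G.P}
    (hp : G.lvl p ≤ n) (a : Aux G) : apA f p a = apA g p a := by
  unfold apA
  split_ifs with h
  · rw [hfg ⟨(p, a), h⟩ hp]
  · rfl

lemma apA_high (hf : (Unr G k O).Str f) {p : G.P} {a : Aux G} (h : Legal G k O p a)
    (hl : k + 2 ≤ G.lvl p) : apA f p a = a := by
  obtain ⟨h1, h2⟩ := ap_legal hf h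
  have h3 := (ap_child hf p a).1
  rcases legal_high h1 (by omega) with ⟨S, v, h4⟩ | ⟨S, T, h4⟩
  · rw [h4] at h2 ⊢
    simp only [parAux] at h2
    rwa [if_neg (by omega)] at h2
  · rw [h4] at h2 ⊢
    simp only [parAux] at h2
    rwa [if_neg (by omega)] at h2

lemma ap_legal_high (hf : (Unr G k O).Str f) {p : G.P} {a : Aux G} (h : Legal G k O p a)
    (hl : k + 2 ≤ G.lvl p) : Legal G k O (ap f p a) a := by
  have h1 := (ap_legal hf h).1
  rwa [apA_high hf h hl] at h1

lemma apA_mid (hf : (Unr G k O).Str f) {p : G.P} {S : Set G.P}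
    (h : Legal G k O p (Aux.one S)) :
    (∃ v, apA f p (Aux.one S) = Aux.bad S v) ∨ (∃ T, apA f p (Aux.one S) = Aux.good S T) := by
  obtain ⟨h1, h2⟩ := ap_legal hf h
  have h3 := (ap_child hf p (Aux.one S)).1
  have h4 := h.1
  rcases legal_high h1 (by omega) with ⟨S', v, h5⟩ | ⟨S', T, h5⟩
  · rw [h5] at h2
    simp only [parAux] at h2
    rw [if_pos (by omega)] at h2
    rw [Aux.one.injEq] at h2
    subst h2
    exact Or.inl ⟨v, h5⟩
  · rw [h5] at h2
    simp only [parAux] at h2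
    rw [if_pos (by omega)] at h2
    rw [Aux.one.injEq] at h2
    subst h2
    exact Or.inr ⟨T, h5⟩

lemma apA_k (hf : (Unr G k O).Str f) {p : G.P} (h : G.lvl p = k) :
    ∃ S, apA f p Aux.none = Aux.one S := by
  have hL : Legal G k O p Aux.none := h.le
  obtain ⟨h1, _⟩ := ap_legal hf hL
  have h3 := (ap_child hf p Aux.none).1
  exact legal_mid h1 (by omega)

lemma apA_low (hf : (Unr G k O).Str f) {p : G.P} (h : G.lvl p < k) :
    apA f p Aux.none = Aux.none := by
  have hL : Legal G k O p Aux.none := h.le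
  obtain ⟨h1, _⟩ := ap_legal hf hL
  have h3 := (ap_child hf p Aux.none).1
  exact legal_low h1 (by omega)

/-- Lifting a play. -/
lemma lift_tail {x : ℕ → G.P} (hx : G.Play x) {S : Set G.P} {b : Aux G}
    (hb1 : parAux k (k + 2) b = Aux.one S) (hb2 : ∀ n, k + 2 < n → parAux k n b = b)
    (hS : Legal G k O (x (k + 1)) (Aux.one S)) (hb : ∀ n, k + 2 ≤ n → Legal G k O (x n) b)
    (hf : (Unr G k O).Str f) {i : ℕ}
    (h0 : ∀ n, Even (n + i) → n < k → x (n + 1) = ap f (x n) Aux.none)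
    (h1 : Even (k + i) → x (k + 1) = ap f (x k) Aux.none ∧ apA f (x k) Aux.none = Aux.one S)
    (h2 : Even (k + 1 + i) → x (k + 2) = ap f (x (k + 1)) (Aux.one S) ∧
      apA f (x (k + 1)) (Aux.one S) = b)
    (h3 : ∀ n, Even (n + i) → k + 2 ≤ n → x (n + 1) = ap f (x n) b) :
    ∃ x' : ℕ → (Unr G k O).P, (Unr G k O).Play x' ∧ (Unr G k O).Fol i f x' ∧
      ∀ n, (x' n).1.1 = x n := by
  classical
  let a : ℕ → Aux G := fun n => if n ≤ k then Aux.none else if n = k + 1 then Aux.one S else b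
  have ha0 : ∀ n, n ≤ k → a n = Aux.none := fun n hn => by simp only [a]; rw [if_pos hn]
  have ha1 : a (k + 1) = Aux.one S := by simp [a]
  have ha2 : ∀ n, k + 2 ≤ n → a n = b := fun n hn => by
    simp only [a]; rw [if_neg (by omega), if_neg (by omega)]
  have hL : ∀ n, Legal G k O (x n) (a n) := by
    intro n
    rcases Nat.lt_or_ge k n with hn | hn
    · rcases Nat.lt_or_ge (k + 1) n with hn' | hn'
      · rw [ha2 n hn']; exact hb n hn'
      · have : n = k + 1 := by omega
        subst this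
        rw [ha1]; exact hS
    · rw [ha0 n hn]
      simp only [Legal]
      rw [hx.lvl]; exact hn
  have hpar : ∀ n, parAux k (n + 1) (a (n + 1)) = a n := by
    intro n
    rcases Nat.lt_or_ge n k with hn | hn
    · rw [ha0 _ hn, ha0 _ hn.le]; rfl
    · rcases Nat.lt_or_ge k n with hn' | hn'
      · rcases Nat.lt_or_ge (k + 1) n with hn'' | hn''
        · rw [ha2 n hn'', ha2 (n + 1) (by omega), hb2 _ (by omega)]
        · have : n = k + 1 := by omega
          subst this
          rw [ha1, ha2 _ (by omega), hb1]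
      · have : n = k := by omega
        subst this
        rw [ha1, ha0 _ le_rfl]; rfl
  refine ⟨fun n => ⟨(x n, a n), hL n⟩, ⟨hx.1, fun n => ⟨(hx.child n).1, ?_⟩⟩, ?_, fun n => rfl⟩
  · apply Subtype.ext
    apply Prod.ext
    · exact hx.par n
    · change parAux k (G.lvl (x (n + 1))) (a (n + 1)) = a n
      rw [hx.lvl]; exact hpar n
  · intro n hn
    apply Subtype.ext
    have key : x (n + 1) = ap f (x n) (a n) ∧ a (n + 1) = apA f (x n) (a n) := by
      rcases Nat.lt_or_ge n k with hn' | hn'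
      · rw [ha0 _ hn', ha0 _ hn'.le, apA_low hf (by rw [hx.lvl]; exact hn')]
        exact ⟨h0 n hn hn', rfl⟩
      · rcases Nat.lt_or_ge k n with hn1 | hn1
        · rcases Nat.lt_or_ge (k + 1) n with hn2 | hn2
          · rw [ha2 n hn2, ha2 (n + 1) (by omega), apA_high hf (hb n hn2) (by rw [hx.lvl]; exact hn2)]
            exact ⟨h3 n hn hn2, rfl⟩
          · have : n = k + 1 := by omega
            subst this
            rw [ha1, ha2 _ (by omega)]
            exact ⟨(h2 hn).1, (h2 hn).2.symm⟩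
        · have : n = k := by omega
          subst this
          rw [ha1, ha0 _ le_rfl]
          exact ⟨(h1 hn).1, (h1 hn).2.symm⟩
    obtain ⟨k1, k2⟩ := key
    rw [ap_eq (hL n)] at k1
    rw [apA_eq (hL n)] at k2
    exact Prod.ext k1 k2

lemma bad_forced (hf : (Unr G k O).Str f) {p v : G.P} {S : Set G.P}
    (h : Legal G k O p (Aux.bad S v)) (hl : G.lvl p < G.lvl v) :
    ap f p (Aux.bad S v) = G.anc (G.lvl p + 1) v := by
  have h1 := ap_legal_high hf h h.1
  have h2 := (ap_child hf p (Aux.bad S v)).1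
  rcases h1.2.2.2.2.2 with ⟨_, h4⟩ | ⟨h3, h4⟩
  · rw [← h2]; exact h4.symm
  · have h5 : G.lvl v = G.lvl (ap f p (Aux.bad S v)) := by omega
    rw [anc_self' h5.symm] at h4
    rw [← h2, h4, anc_self]

/-- The path to `p` has met `D` at a level at least `a`. -/
def Met (G : Gm.{u}) (D : Set G.P) (a : ℕ) (p : G.P) : Prop :=
  ∃ m, a ≤ m ∧ m ≤ G.lvl p ∧ G.anc m p ∈ D

open Classical in
/-- The first meeting point. -/
noncomputable def fst (G : Gm.{u}) (D : Set G.P) (a : ℕ) (p : G.P) : G.P :=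
  if h : Met G D a p then G.anc (Nat.find h) p else p

lemma met_play {x : ℕ → G.P} (hx : G.Play x) {D : Set G.P} {a n : ℕ} :
    Met G D a (x n) ↔ ∃ m, a ≤ m ∧ m ≤ n ∧ x m ∈ D := by
  unfold Met
  rw [hx.lvl]
  constructor
  · rintro ⟨m, h1, h2, h3⟩
    rw [hx.anc h2] at h3
    exact ⟨m, h1, h2, h3⟩
  · rintro ⟨m, h1, h2, h3⟩
    rw [← hx.anc h2] at h3
    exact ⟨m, h1, h2, h3⟩

lemma fst_play {x : ℕ → G.P} (hx : G.Play x) {D : Set G.P} {a n m : ℕ} (h1 : a ≤ m) (h2 : m ≤ n)
    (h3 : x m ∈ D) (h4 : ∀ l, a ≤ l → l < m → x l ∉ D) : fst G D a (x n) = x m := by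
  classical
  have h : Met G D a (x n) := (met_play hx).2 ⟨m, h1, h2, h3⟩
  rw [fst, dif_pos h]
  have h5 := Nat.find_spec h
  obtain ⟨h5, h6', h7⟩ := h5
  have h6 : Nat.find h ≤ n := h6'.trans (hx.lvl n).le
  have h8 : Nat.find h = m := by
    apply le_antisymm
    · exact Nat.find_min' h ⟨h1, by rw [hx.lvl]; exact h2, by rw [hx.anc h2]; exact h3⟩
    · by_contra hcon
      push Not at hcon
      rw [hx.anc h6] at h7
      exact h4 _ h5 hcon h7
  rw [h8, hx.anc h2]

/-- The positions above `r` all of whose predecessors are in `A` and not winning for `i`. -/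
def tr (G : Gm.{u}) (A U : Set G.P) (i : ℕ) (r : G.P) : Set G.P :=
  {q | q ∈ cone G r ∧ ∀ n, G.lvl r ≤ n → n ≤ G.lvl q → G.anc n q ∈ A ∧ ¬ Win G A U i (G.anc n q)}

lemma tr_self {A U : Set G.P} {i : ℕ} {r : G.P} (hr : r ∈ A) (hw : ¬ Win G A U i r) :
    r ∈ tr G A U i r := by
  refine ⟨cone_self r, fun n h1 h2 => ?_⟩
  rw [anc_self' (le_antisymm h1 h2)]
  exact ⟨hr, hw⟩

lemma tr_child {A U : Set G.P} {i : ℕ} {r q c : G.P} (hq : q ∈ tr G A U i r) (hc : G.Child q c)
    (hA : c ∈ A) (hw : ¬ Win G A U i c) : c ∈ tr G A U i r := by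
  refine ⟨cone_child hq.1 hc, fun n h1 h2 => ?_⟩
  rcases Nat.lt_or_ge (G.lvl q) n with h3 | h3
  · have := hc.1
    rw [anc_self' (by omega)]
    exact ⟨hA, hw⟩
  · rw [anc_child hc h3]
    exact hq.2 n h1 h3

lemma tr_mem {A U : Set G.P} {i : ℕ} {r q : G.P} (hq : q ∈ tr G A U i r) :
    q ∈ A ∧ ¬ Win G A U i q := by
  have := hq.2 _ hq.1.1 le_rfl
  rwa [anc_self] at this

lemma tr_root {A U : Set G.P} {i : ℕ} {r q : G.P} (hq : q ∈ tr G A U i r) :
    r ∈ A ∧ ¬ Win G A U i r := by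
  have := hq.2 _ le_rfl hq.1.1
  rwa [hq.1.2] at this

lemma tr_anc {A U : Set G.P} {i : ℕ} {r q : G.P} (hq : q ∈ tr G A U i r) {n : ℕ}
    (h1 : G.lvl r ≤ n) (h2 : n ≤ G.lvl q) : G.anc n q ∈ tr G A U i r := by
  refine ⟨⟨by rw [lvl_anc h2]; exact h1, by rw [anc_anc h1 h2]; exact hq.1.2⟩, fun m h3 h4 => ?_⟩
  rw [lvl_anc h2] at h4
  rw [anc_anc h4 h2]
  exact hq.2 m h3 (h4.trans h2)

lemma tr_notU {A U : Set G.P} {i : ℕ} {r q : G.P} (hq : q ∈ tr G A U i r) : q ∉ U :=
  fun h => (tr_mem hq).2 (win_of_mem h)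

lemma tr_qs {A U : Set G.P} {i j : ℕ} {r : G.P} (hr : r ∈ A) (hw : ¬ Win G A U i r)
    (hij : ∀ n, Even (n + j) ↔ ¬ Even (n + i)) : QS G A j r (tr G A U i r) where
  root := tr_self hr hw
  sub := fun q hq => (tr_mem hq).1
  ge := fun q hq => hq.1.1
  eq := fun q hq hl => by rw [← hq.1.2, anc_self' hl]
  down := fun q hq hl => by
    have := tr_anc hq (n := G.lvl q - 1) (by omega) (by omega)
    rw [← par_anc (by omega), show G.lvl q - 1 + 1 = G.lvl q by omega, anc_self] at this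
    exact this
  mine := fun q hq he => by
    by_contra hcon
    push Not at hcon
    apply (tr_mem hq).2
    apply win_opp ((hij _).1 he)
    intro c hc hA
    by_contra hw'
    exact hcon c (tr_child hq hc hA hw') hc
  opp := fun q hq he c hc hA => by
    apply tr_child hq hc hA
    intro hw'
    apply (tr_mem hq).2
    refine win_mine ?_ hc hA hw'
    by_contra h
    exact he ((hij _).2 h)

end Q203.BD
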