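import Pool.Agent.Q203.BD.Reach

/-!
# Borel determinacy, part 3: the auxiliary game unraveling a closed set
-/

set_option autoImplicit false

namespace Q203.BD

open Gm

universe u

variable {G : Gm.{u}}

/-- Quasi-strategy of player `i` inside `A` with root `r`. -/
structure QS (G : Gm.{u}) (A : Set G.P) (i : ℕ) (r : G.P) (S : Set G.P) : Prop where
  root : r ∈ S
  sub : S ⊆ A
  ge : ∀ q ∈ S, G.lvl r ≤ G.lvl q
  eq : ∀ q ∈ S, G.lvl q = G.lvl r → q = r
  down : ∀ q ∈ S, G.lvl r < G.lvl q → G.par q ∈ S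
  mine : ∀ q ∈ S, Even (G.lvl q + i) → ∃ c ∈ S, G.Child q c
  opp : ∀ q ∈ S, ¬ Even (G.lvl q + i) → ∀ c, G.Child q c → c ∈ A → c ∈ S

/-- all positions extending `r` -/
def cone (G : Gm.{u}) (r : G.P) : Set G.P := {q | G.lvl r ≤ G.lvl q ∧ G.anc (G.lvl r) q = r}

lemma cone_child {r q c : G.P} (h : q ∈ cone G r) (hc : G.Child q c) : c ∈ cone G r := by
  refine ⟨by rw [hc.1]; exact h.1.trans (Nat.le_succ _), ?_⟩
  rw [anc_child hc h.1]; exact h.2

lemma cone_self (r : G.P) : r ∈ cone G r := ⟨le_rfl, anc_self r⟩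

lemma cone_par {r q : G.P} (h : q ∈ cone G r) (hl : G.lvl r < G.lvl q) : G.par q ∈ cone G r := by
  refine ⟨by rw [G.lvl_par]; omega, ?_⟩
  rw [anc_par (by omega) (by omega)]
  exact h.2

lemma QS.anc {A S : Set G.P} {i : ℕ} {r q : G.P} (h : QS G A i r S) (hq : q ∈ S) {n : ℕ}
    (h1 : G.lvl r ≤ n) (h2 : n ≤ G.lvl q) : G.anc n q ∈ S := by
  have key : ∀ d, ∀ q ∈ S, G.lvl r + d ≤ G.lvl q → G.anc (G.lvl q - d) q ∈ S := by
    intro d
    induction d with
    | zero => intro q hq _; rw [Nat.sub_zero, anc_self]; exact hq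
    | succ d ih =>
      intro q hq hd
      have h3 := ih q hq (by omega)
      have h4 := h.down _ h3 (by rw [lvl_anc (by omega)]; omega)
      have h5 : G.lvl q - d = (G.lvl q - (d + 1)) + 1 := by omega
      rw [h5, par_anc (by omega)] at h4
      exact h4
  have := key (G.lvl q - n) q hq (by omega)
  rwa [show G.lvl q - (G.lvl q - n) = n by omega] at this

lemma QS.anc_root {A S : Set G.P} {i : ℕ} {r q : G.P} (h : QS G A i r S) (hq : q ∈ S) :
    G.anc (G.lvl r) q = r :=
  h.eq _ (h.anc hq le_rfl (h.ge q hq)) (lvl_anc (h.ge q hq))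

lemma qs_cone (i : ℕ) (r : G.P) : QS G Set.univ i r (cone G r) where
  root := cone_self r
  sub := fun _ _ => trivial
  ge := fun q h => h.1
  eq := fun q h hl => by rw [← h.2, anc_self' hl]
  down := fun q h hl => cone_par h hl
  mine := fun q h _ => by
    obtain ⟨c, hc⟩ := G.ext q
    exact ⟨c, cone_child h hc, hc⟩
  opp := fun q h _ c hc _ => cone_child h hc

/-- auxiliary information carried by the positions of the auxiliary game -/
inductive Aux (G : Gm.{u}) : Type u
  | none : Aux G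
  | one : Set G.P → Aux G
  | bad : Set G.P → G.P → Aux G
  | good : Set G.P → Set G.P → Aux G

/-- The legal positions. -/
def Legal (G : Gm.{u}) (k : ℕ) (O : Set G.P) (p : G.P) : Aux G → Prop
  | Aux.none => G.lvl p ≤ k
  | Aux.one S => G.lvl p = k + 1 ∧ QS G Set.univ k p S
  | Aux.bad S v => k + 2 ≤ G.lvl p ∧ QS G Set.univ k (G.anc (k + 1) p) S ∧ v ∈ S ∧
      k + 2 ≤ G.lvl v ∧ v ∈ O ∧
      ((G.lvl p ≤ G.lvl v ∧ G.anc (G.lvl p) v = p) ∨ (G.lvl v ≤ G.lvl p ∧ G.anc (G.lvl v) p = v))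
  | Aux.good S T => k + 2 ≤ G.lvl p ∧ QS G Set.univ k (G.anc (k + 1) p) S ∧
      QS G S (k + 1) (G.anc (k + 2) p) T ∧ (∀ q ∈ T, q ∉ O) ∧ p ∈ T

/-- predecessor of the auxiliary information at level `n` -/
def parAux (k n : ℕ) : Aux G → Aux G
  | Aux.none => Aux.none
  | Aux.one _ => Aux.none
  | Aux.bad S v => if n = k + 2 then Aux.one S else Aux.bad S v
  | Aux.good S T => if n = k + 2 then Aux.one S else Aux.good S T

variable {k : ℕ} {O : Set G.P}

lemma legal_par {p : G.P} {a : Aux G} (h : Legal G k O p a) :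
    Legal G k O (G.par p) (parAux k (G.lvl p) a) := by
  cases a with
  | none => simp only [Legal, parAux] at h ⊢; rw [G.lvl_par]; omega
  | one S => simp only [Legal, parAux] at h ⊢; rw [G.lvl_par]; omega
  | bad S v =>
    obtain ⟨h1, h2, h3, h4, h5, h6⟩ := h
    by_cases hk : G.lvl p = k + 2
    · simp only [parAux, hk, if_true, Legal]
      refine ⟨by rw [G.lvl_par]; omega, ?_⟩
      rw [show G.par p = G.anc (k + 1) p by
        rw [← par_anc (p := p) (n := k + 1) (by omega), anc_self' (by omega)]]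
      exact h2
    · simp only [parAux, hk, if_false, Legal]
      rw [anc_par (by omega) (by omega)]
      refine ⟨by rw [G.lvl_par]; omega, h2, h3, h4, h5, ?_⟩
      rw [G.lvl_par]
      rcases h6 with ⟨h6, h7⟩ | ⟨h6, h7⟩
      · left
        refine ⟨by omega, ?_⟩
        conv_rhs => rw [← h7]
        have : G.lvl p = (G.lvl p - 1) + 1 := by omega
        conv_rhs => rw [this]
        rw [par_anc (by omega)]
      · by_cases h8 : G.lvl v = G.lvl p
        · left
          refine ⟨by omega, ?_⟩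
          rw [anc_self' h8.symm] at h7
          subst h7
          have : G.lvl p = (G.lvl p - 1) + 1 := by omega
          conv_rhs => rw [← anc_self p, this]
          rw [par_anc (by omega)]
        · right
          refine ⟨by omega, ?_⟩
          rw [anc_par (by omega) (by omega)]; exact h7
  | good S T =>
    obtain ⟨h1, h2, h3, h4, h5⟩ := h
    by_cases hk : G.lvl p = k + 2
    · simp only [parAux, hk, if_true, Legal]
      refine ⟨by rw [G.lvl_par]; omega, ?_⟩
      rw [show G.par p = G.anc (k + 1) p by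
        rw [← par_anc (p := p) (n := k + 1) (by omega), anc_self' (by omega)]]
      exact h2
    · simp only [parAux, hk, if_false, Legal]
      rw [anc_par (by omega) (by omega), anc_par (by omega) (by omega)]
      refine ⟨by rw [G.lvl_par]; omega, h2, h3, h4, ?_⟩
      apply h3.down _ h5
      rw [lvl_anc (by omega)]; omega

/-- legal children -/
lemma legal_ext (p : G.P) (a : Aux G) (h : Legal G k O p a) :
    ∃ c b, Legal G k O c b ∧ G.Child p c ∧ parAux k (G.lvl c) b = a := by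
  cases a with
  | none =>
    obtain ⟨c, hc⟩ := G.ext p
    simp only [Legal] at h
    rcases Nat.lt_or_ge (G.lvl p) k with hk | hk
    · exact ⟨c, Aux.none, by simp only [Legal]; omega, hc, rfl⟩
    · refine ⟨c, Aux.one (cone G c), ⟨by omega, qs_cone _ _⟩, hc, rfl⟩
  | one S =>
    obtain ⟨h1, h2⟩ := h
    obtain ⟨c, hc⟩ := G.ext p
    have hodd : ¬ Even (G.lvl p + k) := by rw [h1]; grind
    have hcS : c ∈ S := h2.opp p h2.root hodd c hc trivial
    have hck : G.lvl c = k + 2 := by rw [hc.1, h1]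
    have hac : G.anc (k + 1) c = p := by
      rw [← h1, anc_child hc le_rfl, anc_self]
    by_cases hv : ∃ v ∈ S, k + 2 ≤ G.lvl v ∧ v ∈ O ∧ G.anc (k + 2) v = c
    · obtain ⟨v, hvS, hv1, hv2, hv3⟩ := hv
      refine ⟨c, Aux.bad S v, ⟨hck.ge, by rw [hac]; exact h2, hvS, hv1, hv2, Or.inl ⟨by omega,
        by rw [hck]; exact hv3⟩⟩, hc, ?_⟩
      simp [parAux, hck]
    · refine ⟨c, Aux.good S (S ∩ cone G c), ⟨hck.ge, by rw [hac]; exact h2, ?_, ?_, ?_⟩, hc, ?_⟩
      · rw [anc_self' hck]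
        refine ⟨⟨hcS, cone_self c⟩, Set.inter_subset_left, fun q hq => hq.2.1, fun q hq hl => ?_,
          fun q hq hl => ⟨h2.down q hq.1 (by omega), cone_par hq.2 hl⟩, fun q hq he => ?_,
          fun q hq _ c' hc' hA => ⟨hA, cone_child hq.2 hc'⟩⟩
        · rw [← hq.2.2, anc_self' hl]
        · obtain ⟨c', hc'⟩ := G.ext q
          exact ⟨c', ⟨h2.opp q hq.1 (by grind) c' hc' trivial, cone_child hq.2 hc'⟩, hc'⟩
      · intro q hq hO
        exact hv ⟨q, hq.1, by rw [← hck]; exact hq.2.1, hO, by rw [← hck]; exact hq.2.2⟩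
      · exact ⟨hcS, cone_self c⟩
      · simp [parAux, hck]
  | bad S v =>
    obtain ⟨h1, h2, h3, h4, h5, h6⟩ := h
    have main : ∃ c, G.Child p c ∧
        ((G.lvl c ≤ G.lvl v ∧ G.anc (G.lvl c) v = c) ∨
          (G.lvl v ≤ G.lvl c ∧ G.anc (G.lvl v) c = v)) := by
      rcases Nat.lt_or_ge (G.lvl p) (G.lvl v) with hk | hk
      · rcases h6 with ⟨_, h7⟩ | ⟨h6, _⟩
        · refine ⟨G.anc (G.lvl p + 1) v, ?_, Or.inl ?_⟩
          · have := child_anc (G := G) (p := v) (n := G.lvl p) hk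
            rwa [h7] at this
          · rw [lvl_anc (by omega)]
            exact ⟨hk, rfl⟩
        · omega
      · obtain ⟨c, hc⟩ := G.ext p
        have hc1 := hc.1
        refine ⟨c, hc, Or.inr ⟨by omega, ?_⟩⟩
        rw [anc_child hc hk]
        rcases h6 with ⟨h6, h7⟩ | ⟨_, h7⟩
        · have : G.lvl p = G.lvl v := le_antisymm h6 hk
          rw [this, anc_self] at h7
          rw [h7, anc_self]
        · exact h7
    obtain ⟨c, hc, hc2⟩ := main
    have hc1 := hc.1
    refine ⟨c, Aux.bad S v, ⟨by omega, ?_, h3, h4, h5, hc2⟩, hc, ?_⟩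
    · rw [anc_child hc (by omega)]; exact h2
    · simp only [parAux]; rw [if_neg (by omega)]
  | good S T =>
    obtain ⟨h1, h2, h3, h4, h5⟩ := h
    have main : ∃ c ∈ T, G.Child p c := by
      by_cases he : Even (G.lvl p + (k + 1))
      · exact h3.mine p h5 he
      · obtain ⟨c, hcS, hc⟩ := h2.mine p (h3.sub h5) (by grind)
        exact ⟨c, h3.opp p h5 he c hc hcS, hc⟩
    obtain ⟨c, hcT, hc⟩ := main
    have hc1 := hc.1
    refine ⟨c, Aux.good S T, ⟨by omega, ?_, ?_, h4, hcT⟩, hc, ?_⟩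
    · rw [anc_child hc (by omega)]; exact h2
    · rw [anc_child hc (by omega)]; exact h3
    · simp only [parAux]; rw [if_neg (by omega)]

variable (G k O) in
/-- The auxiliary game. -/
def Unr : Gm.{u} where
  P := {z : G.P × Aux G // Legal G k O z.1 z.2}
  lvl := fun z => G.lvl z.1.1
  par := fun z => ⟨(G.par z.1.1, parAux k (G.lvl z.1.1) z.1.2), legal_par z.2⟩
  lvl_par := fun z => G.lvl_par z.1.1
  ext := fun z => by
    obtain ⟨c, b, h1, h2, h3⟩ := legal_ext z.1.1 z.1.2 z.2
    exact ⟨⟨(c, b), h1⟩, h2.1, Subtype.ext (Prod.ext h2.2 h3)⟩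

end Q203.BD
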